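import Pool.Agent.P.MP_26a8c3_nt.Hyb10

/-! The dual sums on average over a family of well spaced segments. -/

namespace Pool.Agent.P.MP_26a8c3_nt.Sp

open Finset Real MeasureTheory Pool.Agent.P.MP_26a8c3_nt.Hyb
open scoped ComplexConjugate

/-- The inequality of Halasz and Montgomery. -/
lemma hm {ι κ : Type*} (Y : Finset ι) (J : Finset κ) (a : κ → ℂ) (φ : ι → κ → ℂ) {α N W : ℝ}
    (ha : ∀ j ∈ J, ‖a j‖ ≤ α) (hN : (J.card : ℝ) ≤ N) (hφ : ∀ i j, ‖φ i j‖ = 1) (hW0 : 0 ≤ W)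
    (hW : ∀ i ∈ Y, ∀ i' ∈ Y, i ≠ i' → ‖∑ j ∈ J, φ i j * conj (φ i' j)‖ ≤ W) :
    (∑ i ∈ Y, ‖∑ j ∈ J, a j * φ i j‖) ^ 2 ≤ α ^ 2 * N * (Y.card * N + Y.card ^ 2 * W) := by
  classical
  choose θ h1 h2 using fun i => Complex.exists_norm_eq_mul_self (∑ j ∈ J, a j * φ i j)
  set b : κ → ℂ := fun j => ∑ i ∈ Y, θ i * φ i j with hb
  have hN0 : 0 ≤ N := (Nat.cast_nonneg _).trans hN
  have e1 : ∑ i ∈ Y, ‖∑ j ∈ J, a j * φ i j‖ ≤ ∑ j ∈ J, |α| * ‖b j‖ := by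
    have : ((∑ i ∈ Y, ‖∑ j ∈ J, a j * φ i j‖ : ℝ) : ℂ) = ∑ j ∈ J, a j * b j := by
      push_cast
      simp only [h2, hb, Finset.mul_sum]
      rw [Finset.sum_comm]
      exact Finset.sum_congr rfl fun _ _ => Finset.sum_congr rfl fun _ _ => by ring
    refine (le_abs_self _).trans ?_
    rw [← Real.norm_eq_abs, ← Complex.norm_real, this]
    refine (norm_sum_le _ _).trans (Finset.sum_le_sum fun j hj => ?_)
    rw [norm_mul]
    exact mul_le_mul_of_nonneg_right ((ha j hj).trans (le_abs_self _)) (norm_nonneg _)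
  have e2 : ∑ j ∈ J, ‖b j‖ ^ 2 ≤ Y.card * N + Y.card ^ 2 * W := by
    have : ((∑ j ∈ J, ‖b j‖ ^ 2 : ℝ) : ℂ) =
        ∑ i ∈ Y, ∑ i' ∈ Y, θ i * conj (θ i') * ∑ j ∈ J, φ i j * conj (φ i' j) := by
      push_cast
      simp only [← Complex.mul_conj', hb, map_sum, map_mul, Finset.sum_mul_sum]
      rw [Finset.sum_comm]
      refine Finset.sum_congr rfl fun _ _ => ?_
      rw [Finset.sum_comm]
      refine Finset.sum_congr rfl fun _ _ => ?_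
      rw [Finset.mul_sum]
      exact Finset.sum_congr rfl fun _ _ => by ring
    refine (le_abs_self _).trans ?_
    rw [← Real.norm_eq_abs, ← Complex.norm_real, this]
    refine (norm_sum_le _ _).trans ((Finset.sum_le_card_nsmul _ _ (N + Y.card * W)
      fun i hi => ?_).trans (le_of_eq (by rw [nsmul_eq_mul]; ring)))
    refine (norm_sum_le _ _).trans ((Finset.sum_le_sum (g := fun i' => (if i = i' then N else 0) + W)
      fun i' hi' => ?_).trans (le_of_eq ?_))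
    · rw [norm_mul, norm_mul, h1, Complex.norm_conj, h1, one_mul, one_mul]
      split_ifs with h
      · refine (norm_sum_le _ _).trans ?_
        simp only [norm_mul, Complex.norm_conj, hφ, mul_one, Finset.sum_const, nsmul_eq_mul]
        linarith
      · linarith [hW i hi i' hi' h]
    · rw [Finset.sum_add_distrib, Finset.sum_ite_eq, if_pos hi, Finset.sum_const, nsmul_eq_mul]
  calc _ ≤ (∑ j ∈ J, |α| * ‖b j‖) ^ 2 :=
        pow_le_pow_left₀ (Finset.sum_nonneg fun _ _ => norm_nonneg _) e1 2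
    _ = α ^ 2 * (∑ j ∈ J, ‖b j‖) ^ 2 := by rw [← Finset.mul_sum, mul_pow, sq_abs]
    _ ≤ α ^ 2 * (J.card * ∑ j ∈ J, ‖b j‖ ^ 2) :=
        mul_le_mul_of_nonneg_left sq_sum_le_card_mul_sum_sq (sq_nonneg _)
    _ ≤ α ^ 2 * (N * (Y.card * N + Y.card ^ 2 * W)) := mul_le_mul_of_nonneg_left
        (mul_le_mul hN e2 (Finset.sum_nonneg fun _ _ => sq_nonneg _) hN0) (sq_nonneg _)
    _ = _ := by ring

lemma conj_ee (x : ℝ) : conj (ee x) = ee (-x) := by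
  rw [ee_eq, ee_eq, ← Complex.exp_conj, map_mul, Complex.conj_ofReal, Complex.conj_I]
  push_cast; ring_nf

lemma norm_hat {g : ℝ → ℝ} {C : ℝ} (hg : Good g C) (ξ : ℝ) : ‖hat g ξ‖ ≤ 2 := by
  refine (norm_integral_le_integral_norm _).trans (le_trans (le_of_eq ?_) hg.int_le)
  refine integral_congr_ae (.of_forall fun v => ?_)
  simp only [norm_mul, norm_ee, mul_one, Complex.norm_real, Real.norm_of_nonneg (hg.nonneg v)]

/-- The phase of a segment. -/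
noncomputable def ph (k : ℕ) [NeZero k] (y : ℝ) (a : ℝ × ℤ) (D : ℕ) (h : ℤ) : ℂ :=
  ch k (h * a.2 * (D : ZMod k)⁻¹) * ee (-(h * (a.1 - y) / (k * D)))

lemma norm_ph (k : ℕ) [NeZero k] (y : ℝ) (a : ℝ × ℤ) (D : ℕ) (h : ℤ) : ‖ph k y a D h‖ = 1 := by
  rw [ph, norm_mul, norm_ee, AddChar.norm_apply, mul_one]

lemma ph_mul {k k₀ g : ℕ} [NeZero k] [NeZero k₀] (hk : k = g * k₀) (y : ℝ) {a b : ℝ × ℤ} {d : ℤ}
    (hd : a.2 - b.2 = g * d) {q m p : ℕ} (hq : Nat.Coprime q k) (hm : Nat.Coprime m k)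
    (hp : Nat.Coprime p k) (h : ℤ) :
    ph k y a (q * m * p) h * conj (ph k y b (q * m * p) h) =
      ker k₀ (h * d * (q : ZMod k₀)⁻¹) (-(h * (a.1 - b.1)) / (k * q)) m p := by
  have hk0 : k₀ ∣ k := ⟨g, by rw [hk, mul_comm]⟩
  have hD := Nat.Coprime.mul_left (Nat.Coprime.mul_left hq hm) hp
  obtain ⟨t, ht⟩ := ZMod.intCast_surjective (((q * m * p : ℕ) : ZMod k)⁻¹)
  have ht0 : ((q * m * p : ℕ) : ZMod k₀)⁻¹ = t := by
    refine ZMod.inv_eq_of_mul_eq_one _ _ _ ?_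
    have h1 := ZMod.mul_inv_of_unit _ ((ZMod.isUnit_iff_coprime _ _).2 hD)
    rw [← ht] at h1
    have h2 := congrArg (ZMod.castHom hk0 (ZMod k₀)) h1
    rwa [map_mul, map_natCast, map_intCast, map_one] at h2
  have e : (h : ZMod k₀) * d * (q : ZMod k₀)⁻¹ * (p : ZMod k₀)⁻¹ * (m : ZMod k₀)⁻¹ =
      ((h * d * t : ℤ) : ZMod k₀) := by
    push_cast
    rw [← ht0, inv_mul_cop ((Nat.Coprime.mul_left hq hm).coprime_dvd_right hk0)
      (hp.coprime_dvd_right hk0), inv_mul_cop (hq.coprime_dvd_right hk0) (hm.coprime_dvd_right hk0)]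
    ring
  have e' : ∀ l : ℤ, (h : ZMod k) * l * t = ((h * l * t : ℤ) : ZMod k) := fun l => by push_cast; rfl
  have hk' : (k : ℝ) ≠ 0 := by exact_mod_cast NeZero.ne k
  have hk'' : (k₀ : ℝ) ≠ 0 := by exact_mod_cast NeZero.ne k₀
  have hg : (g : ℝ) ≠ 0 := fun h0 => hk' (by rw [hk]; push_cast; rw [h0, zero_mul])
  have hd' : (a.2 : ℝ) = b.2 + g * d := by
    have : ((a.2 - b.2 : ℤ) : ℝ) = ((g * d : ℤ) : ℝ) := by rw [hd]
    push_cast at this; linarith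
  rw [ph, ph, ker, e, ← ht, e', e', ch_int, ch_int, ch_int, map_mul, conj_ee, conj_ee, ← ee_add,
    ← ee_add, ← ee_add, ← ee_add]
  congr 1
  have hkr : (k : ℝ) = g * k₀ := by exact_mod_cast hk
  have : ((h * d * t : ℤ) : ℝ) / k₀ = ((h * a.2 * t : ℤ) : ℝ) / k - ((h * b.2 * t : ℤ) : ℝ) / k := by
    push_cast
    rw [hd', hkr]; field_simp; ring
  rw [this]; push_cast; ring

/-- Two segments at a prescribed distance. -/
def Far (k₀ g : ℕ) (y Λ w : ℝ) (a b : ℝ × ℤ) : Prop :=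
  ∃ d : ℤ, a.2 - b.2 = g * d ∧ (Int.gcd d k₀ : ℝ) ≤ w ∧ |a.1 - b.1| ≤ y * Λ * w ∧
    (Λ = 1 ∨ y * Λ ≤ |a.1 - b.1|)

/-- The parameters of the bilinear bound. -/
structure Par (K k₀ : ℕ) (B B' r s Z Λ : ℝ) : Prop where
  hK : 1 ≤ K
  hB2 : 2 ≤ B
  hBB : B ^ 3 ≤ B'
  hD : ∀ a : ℕ, a ≠ 0 → (a : ℝ) ≤ Z → (a.divisors.card : ℝ) ≤ B'
  hZ1 : (r ^ 16 * B') ^ (3 * K) ≤ Z
  hB : 32 * (K : ℝ) ^ 2 ≤ B'
  hr : B' ^ (30 * K ^ 2) ≤ r
  hs : s * r ^ 4 = r ^ (16 * K)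
  hΛ : 1 ≤ Λ
  hs2 : s ^ 2 = k₀ * Λ

lemma pair {k k₀ g K : ℕ} [NeZero k] (hk : k = g * k₀) {y r s B B' M₁ Z Λ : ℝ}
    (H : Par K k₀ B B' r s Z Λ) (hy : 0 < y) {q : ℕ} (hq : q ≠ 0) (hqk : Nat.Coprime q k)
    (MM PP : Finset ℕ) (hMM : ∀ m ∈ MM, M₁ / B ^ 5 ≤ m ∧ (m : ℝ) ≤ M₁ ∧ Nat.Coprime m k)
    (hPP : ∀ p ∈ PP, r ^ 16 ≤ p ∧ (p : ℝ) ≤ r ^ 16 * B ∧ Nat.Coprime p k)
    (hZ2 : M₁ ^ (3 * K) ≤ Z) (hM1 : 1 ≤ M₁) (hM2 : s ≤ M₁ ^ K)
    (hlo : y / k ≤ q * M₁ * r ^ 16) (hhi : q * M₁ * (r ^ 16 * B) ≤ y / k * B ^ 4)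
    {a b : ℝ × ℤ} (hab : Far k₀ g y Λ (B' ^ 4) a b) {h : ℤ} (hh0 : h ≠ 0)
    (hh : |(h : ℝ)| ≤ 2 * B ^ 9) :
    ‖∑ m ∈ MM, ∑ p ∈ PP, ph k y a (q * m * p) h * conj (ph k y b (q * m * p) h)‖ ≤
      r ^ 16 * B * M₁ / (2 * B ^ 32) := by
  have hk1 : k₀ ≠ 0 := fun h0 => NeZero.ne k (by rw [hk, h0, mul_zero])
  have : NeZero k₀ := ⟨hk1⟩
  have hk0 : k₀ ∣ k := ⟨g, by rw [hk, mul_comm]⟩
  obtain ⟨d, hd, hg, hup, hlow⟩ := hab
  have hk' : (0 : ℝ) < k := by exact_mod_cast Nat.pos_of_ne_zero (NeZero.ne k)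
  have hk₀ : (0 : ℝ) < k₀ := by exact_mod_cast Nat.pos_of_ne_zero hk1
  have hq' : (0 : ℝ) < q := by exact_mod_cast Nat.pos_of_ne_zero hq
  have hB1 : 1 ≤ B := by linarith [H.hB2]
  have hB0 : 0 < B := by linarith
  have hBB : B ≤ B' := (le_self_pow₀ hB1 (by norm_num)).trans H.hBB
  have hB1' : 1 ≤ B' := hB1.trans hBB
  have hB0' : 0 < B' := by linarith
  have hr0 : 0 < r := lt_of_lt_of_le (by positivity) H.hr
  have hM0 : 0 < M₁ := by linarith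
  have hΛ := H.hΛ
  have hΛ0 : 0 < Λ := by linarith
  have hh1 : (1 : ℝ) ≤ |(h : ℝ)| := by exact_mod_cast Int.one_le_abs hh0
  have b9 : B ^ 9 ≤ B' ^ 5 := by
    calc B ^ 9 = (B ^ 3) ^ 3 := by ring
      _ ≤ B' ^ 3 := pow_le_pow_left₀ (by positivity) H.hBB 3
      _ ≤ B' ^ 5 := pow_le_pow_right₀ hB1' (by norm_num)
  set T := y / k with hT
  have hT0 : 0 < T := by positivity
  set P := r ^ 16 with hP
  have hP0 : 0 < P := by positivity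
  have eX : k₀ * |-(h * (a.1 - b.1)) / (k * q)| / (P * M₁) =
      k₀ * (|(h : ℝ)| * (|a.1 - b.1| / y) * (T / (q * M₁ * P))) := by
    rw [abs_div, abs_neg, abs_mul, abs_of_pos (by positivity : (0 : ℝ) < k * q), hT]
    field_simp
  rw [Finset.sum_congr rfl fun m hm => Finset.sum_congr rfl fun p hp => by
    rw [ph_mul hk y hd hqk (hMM m hm).2.2 (hPP p hp).2.2 h, ← one_mul (ker _ _ _ _ _),
      ← one_mul (1 : ℂ)]]
  refine (bilinear k₀ (H := 2 * B ^ 9 * B' ^ 4) H.hK PP MM (fun _ => 1) (fun _ => 1) (by simp)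
    (by simp) (fun p hp => ⟨(hPP p hp).1, (hPP p hp).2.1.trans (by gcongr),
      (hPP p hp).2.2.coprime_dvd_right hk0⟩)
    (fun m hm => ⟨le_trans (by gcongr) (hMM m hm).1, (hMM m hm).2.1,
      (hMM m hm).2.2.coprime_dvd_right hk0⟩) (fun Δ h1 h2 => ?_) ?_ ?_ H.hD H.hZ1 hZ2 H.hB H.hr H.hs
    hM1 hM2 ?_ ?_ ?_).trans ?_
  · have hu : IsUnit ((q : ZMod k₀)⁻¹) := IsUnit.of_mul_eq_one _
      (ZMod.inv_mul_of_unit _ ((ZMod.isUnit_iff_coprime _ _).2 (hqk.coprime_dvd_right hk0)))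
    have h3 : ((d * (h * Δ) : ℤ) : ZMod k₀) = 0 := by
      refine hu.mul_right_eq_zero.1 ?_
      push_cast
      linear_combination h2
    have h4 : (k₀ : ℤ) ∣ Int.gcd d k₀ * (h * Δ) := by
      rw [Int.gcd_comm]
      exact Int.dvd_gcd_mul_iff_dvd_mul.2 ((ZMod.intCast_zmod_eq_zero_iff_dvd _ _).1 h3)
    have h5 : (Int.gcd d k₀ : ℤ) ≠ 0 := by
      exact_mod_cast (Int.gcd_pos_of_ne_zero_right d (by exact_mod_cast hk1)).ne'
    have h6 := Int.le_of_dvd (abs_pos.2 (mul_ne_zero h5 (mul_ne_zero hh0 h1))) ((dvd_abs _ _).2 h4)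
    have h7 : (k₀ : ℝ) ≤ Int.gcd d k₀ * (|(h : ℝ)| * |(Δ : ℝ)|) := by
      rw [abs_mul, abs_mul, Nat.abs_cast] at h6
      exact_mod_cast h6
    calc _ ≤ _ := h7
      _ ≤ B' ^ 4 * (2 * B ^ 9 * |(Δ : ℝ)|) := by gcongr
      _ = _ := by ring
  · exact one_le_mul_of_one_le_of_one_le (by linarith [one_le_pow₀ (n := 9) hB1]) (one_le_pow₀ hB1')
  · calc _ ≤ 2 * B' ^ 5 * B' ^ 4 := by gcongr
      _ = _ := by ring
  · rw [mul_div_right_comm _ (B' ^ 5), eX, H.hs2]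
    have h0 : 0 ≤ k₀ * (|(h : ℝ)| * (|a.1 - b.1| / y) * (T / (q * M₁ * P))) * B' ^ 5 := by positivity
    rcases hlow with h1 | h1
    · rw [h1]; linarith
    have h2 : 1 / B ^ 3 ≤ T / (q * M₁ * P) := by
      rw [div_le_div_iff₀ (by positivity) (by positivity)]
      refine le_of_mul_le_mul_right ?_ hB0
      calc _ = q * M₁ * (P * B) := by ring
        _ ≤ _ := hhi
        _ = _ := by ring
    have h3 : Λ ≤ |a.1 - b.1| / y := by rwa [le_div_iff₀ hy, mul_comm]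
    have h4 : k₀ * Λ ≤ k₀ * (|(h : ℝ)| * (|a.1 - b.1| / y) * (T / (q * M₁ * P))) * B' ^ 5 := by
      calc k₀ * Λ = k₀ * (1 * Λ * (1 / B ^ 3)) * B ^ 3 := by field_simp
        _ ≤ _ := by
          gcongr
          exact H.hBB.trans (le_self_pow₀ hB1' (by norm_num))
    nlinarith
  · rw [H.hs2]; exact le_mul_of_one_le_right hk₀.le hΛ
  · rw [eX, H.hs2]
    have h2 : T / (q * M₁ * P) ≤ 1 := (div_le_one (by positivity)).2 hlo
    have h3 : |a.1 - b.1| / y ≤ Λ * B' ^ 4 := by rw [div_le_iff₀ hy]; linarith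
    calc _ ≤ k₀ * (2 * B' ^ 5 * (Λ * B' ^ 4) * 1) := by gcongr; linarith
      _ = 2 * B' ^ 9 * (k₀ * Λ) := by ring
      _ ≤ _ := by gcongr; norm_num
  · have h1 : 2 * B ^ 32 ≤ B' ^ 15 := by
      calc 2 * B ^ 32 ≤ B * B ^ 32 := by gcongr; exact H.hB2
        _ = (B ^ 3) ^ 11 := by ring
        _ ≤ B' ^ 11 := pow_le_pow_left₀ (by positivity) H.hBB 11
        _ ≤ B' ^ 15 := pow_le_pow_right₀ hB1' (by norm_num)
    calc P * B' * M₁ / B' ^ 16 = P * 1 * M₁ / B' ^ 15 := by field_simp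
      _ ≤ _ := by gcongr

lemma trm_avg {g : ℝ → ℝ} {C : ℝ} (hg : Good g C) {k k₀ g' K : ℕ} [NeZero k] (hk : k = g' * k₀)
    {y r s B B' M₁ Z Λ Γ : ℝ} (H : Par K k₀ B B' r s Z Λ) (hy : 0 < y) {q : ℕ} (hq : q ≠ 0)
    (hqk : Nat.Coprime q k) (MM PP : Finset ℕ) (γ : ℕ → ℝ) (hΓ : 0 < Γ) (hγ : ∀ m ∈ MM, |γ m| ≤ Γ)
    (hMM : ∀ m ∈ MM, M₁ / B ^ 5 ≤ m ∧ (m : ℝ) ≤ M₁ ∧ Nat.Coprime m k)
    (hPP : ∀ p ∈ PP, r ^ 16 ≤ p ∧ (p : ℝ) ≤ r ^ 16 * B ∧ Nat.Coprime p k)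
    (hZ2 : M₁ ^ (3 * K) ≤ Z) (hM1 : 1 ≤ M₁) (hM2 : s ≤ M₁ ^ K)
    (hlo : y / k ≤ q * M₁ * r ^ 16) (hhi : q * M₁ * (r ^ 16 * B) ≤ y / k * B ^ 4)
    (Y : Finset (ℝ × ℤ)) (hY : 2 * B ^ 32 ≤ Y.card)
    (hF : ∀ a ∈ Y, ∀ b ∈ Y, a ≠ b → Far k₀ g' y Λ (B' ^ 4) a b) {h : ℤ} (hh0 : h ≠ 0)
    (hh : |(h : ℝ)| ≤ 2 * B ^ 9) :
    ∑ a ∈ Y, ‖∑ m ∈ MM, ∑ p ∈ PP, (γ m : ℂ) * trm g k a.2 (a.1 - y) y (q * m * p) h‖ ≤
      Y.card * (2 * (Γ * (y / k) / (q * B ^ 10))) := by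
  have hk' : (0 : ℝ) < k := by exact_mod_cast Nat.pos_of_ne_zero (NeZero.ne k)
  have hq' : (0 : ℝ) < q := by exact_mod_cast Nat.pos_of_ne_zero hq
  have hB0 : 0 < B := by linarith [H.hB2]
  have hB0' : 0 < B' := lt_of_lt_of_le (by positivity) H.hBB
  have hr0 : 0 < r := lt_of_lt_of_le (by positivity) H.hr
  have hM0 : 0 < M₁ := by linarith
  have hm0 : ∀ m ∈ MM, (0 : ℝ) < m := fun m hm => lt_of_lt_of_le (by positivity) (hMM m hm).1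
  have hp0 : ∀ p ∈ PP, (0 : ℝ) < p := fun p hp => lt_of_lt_of_le (by positivity) (hPP p hp).1
  have c1 := card_le_of_le MM hM0.le fun m hm => ⟨by exact_mod_cast (hm0 m hm).ne', (hMM m hm).2.1⟩
  have c2 := card_le_of_le PP (by positivity : 0 ≤ r ^ 16 * B)
    fun p hp => ⟨by exact_mod_cast (hp0 p hp).ne', (hPP p hp).2.1⟩
  have key := hm Y (MM ×ˢ PP)
    (fun j => (γ j.1 : ℂ) * ((y / (k * (q * j.1 * j.2 : ℕ)) : ℝ) *
      hat g (h * y / (k * (q * j.1 * j.2 : ℕ))))) (fun a j => ph k y a (q * j.1 * j.2) h)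
    (α := Γ * (y / (k * (q * (M₁ / B ^ 5) * r ^ 16)) * 2)) (N := r ^ 16 * B * M₁)
    (W := r ^ 16 * B * M₁ / (2 * B ^ 32)) (fun j hj => by
      obtain ⟨h1, h2⟩ := Finset.mem_product.1 hj
      have := hm0 _ h1
      have := hp0 _ h2
      have a1 := (hMM _ h1).1
      have a2 := (hPP _ h2).1
      rw [norm_mul, norm_mul, Complex.norm_real, Complex.norm_real, Real.norm_eq_abs,
        Real.norm_of_nonneg (by positivity)]
      refine mul_le_mul (hγ _ h1) (mul_le_mul ?_ (norm_hat hg _) (norm_nonneg _) (by positivity))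
        (by positivity) hΓ.le
      push_cast
      gcongr)
    (by rw [Finset.card_product, Nat.cast_mul, mul_comm]; gcongr) (fun _ _ => norm_ph _ _ _ _ _)
    (by positivity) fun a ha b hb hab => by
      rw [Finset.sum_product]
      exact pair hk H hy hq hqk MM PP hMM hPP hZ2 hM1 hM2 hlo hhi (hF a ha b hb hab) hh0 hh
  have e : ∀ a ∈ Y, ‖∑ m ∈ MM, ∑ p ∈ PP, (γ m : ℂ) * trm g k a.2 (a.1 - y) y (q * m * p) h‖ =
      ‖∑ j ∈ MM ×ˢ PP, (γ j.1 : ℂ) * ((y / (k * (q * j.1 * j.2 : ℕ)) : ℝ) *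
        hat g (h * y / (k * (q * j.1 * j.2 : ℕ)))) * ph k y a (q * j.1 * j.2) h‖ := by
    intro a _
    rw [Finset.sum_product]
    congr 1
    refine Finset.sum_congr rfl fun m _ => Finset.sum_congr rfl fun p _ => ?_
    rw [trm, ph]; ring
  rw [Finset.sum_congr rfl e]
  refine le_of_pow_le_pow_left₀ two_ne_zero (by positivity) (key.trans ?_)
  generalize (Y.card : ℝ) = R at hY
  have hR : R * (r ^ 16 * B * M₁) ≤ R ^ 2 * (r ^ 16 * B * M₁ / (2 * B ^ 32)) := by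
    have hR0 : 0 < R := lt_of_lt_of_le (by positivity) hY
    calc _ = R * (2 * B ^ 32) * (r ^ 16 * B * M₁ / (2 * B ^ 32)) := by field_simp
      _ ≤ R * R * (r ^ 16 * B * M₁ / (2 * B ^ 32)) := by gcongr
      _ = _ := by ring
  calc _ ≤ (Γ * (y / (k * (q * (M₁ / B ^ 5) * r ^ 16)) * 2)) ^ 2 * (r ^ 16 * B * M₁) *
        (R ^ 2 * (r ^ 16 * B * M₁ / (2 * B ^ 32)) + R ^ 2 * (r ^ 16 * B * M₁ / (2 * B ^ 32))) := by
        gcongr
    _ = _ := by field_simp; ring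

theorem rem_avg {g : ℝ → ℝ} {C : ℝ} (hg : Good g C) {k k₀ g' K : ℕ} [NeZero k] (hk : k = g' * k₀)
    {y r s B B' M₁ Z Λ Γ : ℝ} (H : Par K k₀ B B' r s Z Λ) (hy : 0 < y) {q : ℕ} (hq : q ≠ 0)
    (hqk : Nat.Coprime q k) (MM PP : Finset ℕ) (γ : ℕ → ℝ) (hΓ : 0 < Γ) (hγ : ∀ m ∈ MM, |γ m| ≤ Γ)
    (hMM : ∀ m ∈ MM, m ≠ 0 ∧ (m : ℝ) ≤ M₁ ∧ Nat.Coprime m k)
    (hPP : ∀ p ∈ PP, r ^ 16 ≤ p ∧ (p : ℝ) ≤ r ^ 16 * B ∧ Nat.Coprime p k)
    (hZ2 : M₁ ^ (3 * K) ≤ Z) (hM1 : 1 ≤ M₁) (hM2 : s ≤ M₁ ^ K)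
    (hlo : y / k ≤ q * M₁ * r ^ 16) (hhi : q * M₁ * (r ^ 16 * B) ≤ y / k * B ^ 4)
    (Y : Finset (ℝ × ℤ)) (hY : 2 * B ^ 32 ≤ Y.card)
    (hF : ∀ a ∈ Y, ∀ b ∈ Y, a ≠ b → Far k₀ g' y Λ (B' ^ 4) a b) :
    ∑ a ∈ Y, |∑ m ∈ MM, ∑ p ∈ PP, γ m * rem g k a.2 (a.1 - y) y (q * m * p)| ≤
      Y.card * (Γ * (6 * C + 8) * (y / k) / (q * B)) := by
  have hk' : (0 : ℝ) < k := by exact_mod_cast Nat.pos_of_ne_zero (NeZero.ne k)
  have hq' : (0 : ℝ) < q := by exact_mod_cast Nat.pos_of_ne_zero hq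
  have hC := hg.pos
  have hB1 : 1 ≤ B := by linarith [H.hB2]
  have hB0 : 0 < B := by linarith
  have hB0' : 0 < B' := lt_of_lt_of_le (by positivity) H.hBB
  have hr0 : 0 < r := lt_of_lt_of_le (by positivity) H.hr
  have hM0 : 0 < M₁ := by linarith
  classical
  have hterm := fun h h0 hh => trm_avg hg hk H hy hq hqk
    (MM.filter fun m : ℕ => M₁ / B ^ 5 ≤ (m : ℝ)) PP γ hΓ
    (fun m hm => hγ m (Finset.mem_filter.1 hm).1)
    (fun m hm => ⟨(Finset.mem_filter.1 hm).2, (hMM m (Finset.mem_filter.1 hm).1).2⟩) hPP hZ2 hM1 hM2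
    hlo hhi Y hY hF (h := h) h0 hh
  set T := y / k with hT
  have hT0 : 0 < T := by positivity
  set P := r ^ 16 with hP
  have hP0 : 0 < P := by positivity
  have hPP' : ∀ p ∈ PP, p ≠ 0 ∧ (p : ℝ) ≤ P * B ∧ Nat.Coprime p k := fun p hp =>
    ⟨by have := (hPP p hp).1; rintro rfl; simp only [Nat.cast_zero] at this; linarith,
      (hPP p hp).2⟩
  have hsq : (q * M₁ * (P * B)) ^ 2 ≤ (T * B ^ 4) ^ 2 := pow_le_pow_left₀ (by positivity) hhi 2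
  set M₀ := M₁ / B ^ 5 with hM₀
  have hM00 : 0 < M₀ := by positivity
  set M1 := MM.filter fun m : ℕ => M₀ ≤ (m : ℝ) with hM1d
  have hsm2 : Γ * (4 * C * q / T) * (M₀ * (P * B)) ^ 2 ≤ Γ * (4 * C) * T / (q * B) := by
    calc _ = Γ * (4 * C) * (q * M₁ * (P * B)) ^ 2 / (q * T * B ^ 10) := by
          rw [hM₀]; field_simp
      _ ≤ Γ * (4 * C) * (T * B ^ 4) ^ 2 / (q * T * B ^ 9) := by gcongr; norm_num
      _ = _ := by field_simp
  set N : ℕ := ⌈B ^ 9⌉₊ with hN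
  have hB9 : 1 ≤ B ^ 9 := one_le_pow₀ hB1
  have hH1 : B ^ 9 ≤ N := Nat.le_ceil _
  have hH2 : (N : ℝ) ≤ 2 * B ^ 9 := by
    have := Nat.ceil_lt_add_one (show 0 ≤ B ^ 9 by positivity)
    linarith
  have hH3 : (1 : ℝ) ≤ N := hB9.trans hH1
  have hH4 : 1 ≤ N := by exact_mod_cast hH3
  have hM1' : ∀ m ∈ M1, m ≠ 0 ∧ (m : ℝ) ≤ M₁ ∧ Nat.Coprime m k :=
    fun m hm => hMM m (Finset.mem_filter.1 hm).1
  have hγ1 : ∀ m ∈ M1, |γ m| ≤ Γ := fun m hm => hγ m (Finset.mem_filter.1 hm).1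
  have hpt : ∀ (l : ZMod k) (x₀ : ℝ), |∑ m ∈ MM, ∑ p ∈ PP, γ m * rem g k l x₀ y (q * m * p)| ≤
      Γ * (6 * C) * T / (q * B) + ∑ n ∈ range N,
        (‖∑ m ∈ M1, ∑ p ∈ PP, (γ m : ℂ) * trm g k l x₀ y (q * m * p) (n + 1)‖ +
          ‖∑ m ∈ M1, ∑ p ∈ PP, (γ m : ℂ) * trm g k l x₀ y (q * m * p) (-(n + 1))‖) := by
    intro l x₀
    rw [← Finset.sum_filter_add_sum_filter_not MM fun m => M₀ ≤ (m : ℝ)]
    have hsm := rem_sum_triv hg k l x₀ hy hq hqk (MM.filter fun m : ℕ => ¬ M₀ ≤ (m : ℝ)) PP γ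
      hΓ.le (fun m hm => hγ m (Finset.mem_filter.1 hm).1) hM00.le (by positivity : 0 ≤ P * B)
      (fun m hm => ⟨(hMM m (Finset.mem_filter.1 hm).1).1, (not_le.1 (Finset.mem_filter.1 hm).2).le,
        (hMM m (Finset.mem_filter.1 hm).1).2.2⟩) hPP'
    have htail : ‖∑ m ∈ M1, ∑ p ∈ PP, (γ m : ℂ) * ((rem g k l x₀ y (q * m * p) : ℂ) -
        ∑ n ∈ range N, (trm g k l x₀ y (q * m * p) (n + 1) +
          trm g k l x₀ y (q * m * p) (-(n + 1))))‖ ≤ Γ * (2 * C) * T / (q * B) := by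
      refine (sum_le_aux M1 PP _ (c := Γ * (2 * C * q / T / N)) (by positivity) hM0.le
        (by positivity : 0 ≤ P * B) (fun m hm => ⟨(hM1' m hm).1, (hM1' m hm).2.1⟩)
        (fun p hp => ⟨(hPP' p hp).1, (hPP' p hp).2.1⟩) fun m hm p hp => ?_).trans ?_
      · rw [norm_mul, Complex.norm_real, Real.norm_eq_abs]
        refine (mul_le_mul (hγ1 m hm) (rem_approx hg k l x₀ hy
          (mul_ne_zero (mul_ne_zero hq (hM1' m hm).1) (hPP' p hp).1)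
          (Nat.Coprime.mul_left (Nat.Coprime.mul_left hqk (hM1' m hm).2.2) (hPP' p hp).2.2) hH4)
          (norm_nonneg _) hΓ.le).trans (le_of_eq ?_)
        push_cast; ring
      · calc _ = Γ * (2 * C) * (q * M₁ * (P * B)) ^ 2 / (q * T * N) := by field_simp
          _ ≤ Γ * (2 * C) * (T * B ^ 4) ^ 2 / (q * T * B ^ 9) := by gcongr
          _ = _ := by field_simp
    have e : ((∑ m ∈ M1, ∑ p ∈ PP, γ m * rem g k l x₀ y (q * m * p) : ℝ) : ℂ) =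
        ∑ m ∈ M1, ∑ p ∈ PP, (γ m : ℂ) * ((rem g k l x₀ y (q * m * p) : ℂ) -
          ∑ n ∈ range N, (trm g k l x₀ y (q * m * p) (n + 1) +
            trm g k l x₀ y (q * m * p) (-(n + 1)))) + ∑ n ∈ range N,
        (∑ m ∈ M1, ∑ p ∈ PP, (γ m : ℂ) * trm g k l x₀ y (q * m * p) (n + 1) +
          ∑ m ∈ M1, ∑ p ∈ PP, (γ m : ℂ) * trm g k l x₀ y (q * m * p) (-(n + 1))) := by
      simp only [← Finset.sum_add_distrib]
      rw [Finset.sum_comm (s := range N), ← Finset.sum_add_distrib, Complex.ofReal_sum]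
      refine Finset.sum_congr rfl fun m _ => ?_
      rw [Finset.sum_comm (s := range N), ← Finset.sum_add_distrib, Complex.ofReal_sum]
      refine Finset.sum_congr rfl fun p _ => ?_
      simp only [← mul_add, ← Finset.mul_sum]
      push_cast; ring
    have hbig := congrArg norm e
    rw [Complex.norm_real, Real.norm_eq_abs] at hbig
    have hb2 := hbig.le.trans ((norm_add_le _ _).trans (add_le_add htail
      ((norm_sum_le _ _).trans (Finset.sum_le_sum fun n _ => norm_add_le _ _))))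
    refine (abs_add_le _ _).trans ((add_le_add hb2 (hsm.trans hsm2)).trans (le_of_eq ?_))
    ring
  refine (Finset.sum_le_sum fun a _ => hpt a.2 (a.1 - y)).trans ?_
  rw [Finset.sum_add_distrib, Finset.sum_const, nsmul_eq_mul, Finset.sum_comm]
  refine (add_le_add le_rfl ((Finset.sum_le_card_nsmul _ _
    (Y.card * (4 * (Γ * T / (q * B ^ 10)))) fun n hn => ?_).trans
      (?_ : _ ≤ Y.card * (Γ * 8 * T / (q * B))))).trans (le_of_eq (by ring))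
  · have h1 : |(((n : ℤ) + 1 : ℤ) : ℝ)| ≤ 2 * B ^ 9 := by
      rw [abs_of_nonneg (by positivity)]
      refine le_trans ?_ hH2
      exact_mod_cast Finset.mem_range.1 hn
    have h2 := hterm (n + 1) (by positivity) h1
    have h3 := hterm (-(n + 1)) (neg_ne_zero.2 (by positivity)) (by rwa [Int.cast_neg, abs_neg])
    rw [Finset.sum_add_distrib]
    linarith
  · rw [nsmul_eq_mul, Finset.card_range]
    calc _ ≤ 2 * B ^ 9 * (Y.card * (4 * (Γ * T / (q * B ^ 10)))) := by gcongr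
      _ = _ := by field_simp; ring

end Pool.Agent.P.MP_26a8c3_nt.Sp
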