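import Pool.Agent.P.MP_26a8c3_nt.Sp.A

/-! The sieve with the enlarged support, on average. -/

namespace Pool.Agent.P.MP_26a8c3_nt.Sp

open Finset Pool.Agent.P.MP_26a8c3_nt.Hyb

lemma final_num' {I G₀ G₁ σ e₁ e₂ e₃ e₄ e₅ S a d : ℝ} (h0 : 0 ≤ σ) (h1 : σ ≤ 1 / 2)
    (E1 : |e₁| ≤ a) (E2 : |e₂| ≤ a) (E3 : |e₃| ≤ a) (E5 : |e₅| ≤ a)
    (hS : S ≤ I * (G₁ * σ) * σ + d) :
    I * G₀ + e₁ + 2 * σ * (I * G₁ + e₂) + σ ^ 2 * (I * G₁ + e₃) - 2 * (I * (G₁ * σ) + e₄) +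
      (1 - 2 * σ) * (I * (G₁ * σ) + e₅) + S ≤
      I * (G₀ + σ * G₁) + 13 / 4 * a + (2 * |e₄| + d) := by
  have t1 : 0 ≤ a := (abs_nonneg _).trans E1
  have F1 := (abs_le.1 E1).2
  have F2 := mul_le_mul_of_nonneg_left (abs_le.1 E2).2 h0
  have F3 := mul_le_mul_of_nonneg_left (abs_le.1 E3).2 (sq_nonneg σ)
  have F4 := neg_abs_le e₄
  have F5 := mul_le_mul_of_nonneg_left (abs_le.1 E5).2 (show 0 ≤ 1 - 2 * σ by linarith)
  have t3 : σ ^ 2 * a ≤ 1 / 4 * a := mul_le_mul_of_nonneg_right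
    ((pow_le_pow_left₀ h0 h1 2).trans (by norm_num)) t1
  linarith

theorem sieve_avg {g : ℝ → ℝ} {C : ℝ} (hg : Good g C) {k k₀ g' K : ℕ} [NeZero k]
    (hkg : k = g' * k₀) {y r s B B' Z Λ u b z Y σ : ℝ} (H : Par K k₀ B B' r s Z Λ) (hy : 0 < y)
    (PP : Finset ℕ) (hpr : ∀ p ∈ PP, p.Prime)
    (hPP : ∀ p ∈ PP, r ^ 16 ≤ p ∧ (p : ℝ) ≤ r ^ 16 * B ∧ Nat.Coprime p k)
    (hσ : ∑ p ∈ PP, (p : ℝ)⁻¹ = σ) (hσ1 : σ ≤ 1 / 2)
    (hD : ∀ a : ℕ, a ≠ 0 → (a : ℝ) ≤ Z → (a.divisors.card : ℝ) ≤ u)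
    (hZ2 : (z * z) ^ (3 * K) ≤ Z) (hY1 : 1 ≤ Y) (hM2 : s ≤ (Y * Y) ^ K)
    (hYz : Y * r ^ 16 = z * B) (hb : 1 ≤ b) (hzb : z * z ≤ y / k / b) (hzB : y / k ≤ z * z * B)
    (X : Finset (ℝ × ℤ)) (hX : 2 * B ^ 32 ≤ X.card)
    (hF : ∀ a ∈ X, ∀ b ∈ X, a ≠ b → Far k₀ g' y Λ (B' ^ 4) a b) :
    ∑ a ∈ X, ∑ n ∈ win k a.2 (a.1 - y) y, g ((n - (a.1 - y)) / y) *
      (UU (k * dd PP) z n + UU (k * dd PP) Y n * (σ - ∑ p ∈ PP, dv p n)) ^ 2 ≤
      X.card * ((∫ v, g v) * (y / k) * (GG (k * dd PP) z + σ * GG (k * dd PP) Y) +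
      (GG (k * dd PP) z) ^ 2 * (u ^ 4 * (13 * C / b ^ 2 + (15 * C + 20) / B) * (y / k))) := by
  have hk : (0 : ℝ) < k := by exact_mod_cast Nat.pos_of_ne_zero (NeZero.ne k)
  have hC := hg.pos
  have hK := H.hK
  have hB1 : 1 ≤ B := by linarith only [H.hB2]
  have hB0 : 0 < B := by linarith
  have hK2 : 1 ≤ K ^ 2 := Nat.one_le_pow _ _ hK
  have hr3 : B ^ 3 ≤ r := H.hBB.trans
    ((le_self_pow₀ ((one_le_pow₀ hB1).trans H.hBB) (by omega)).trans H.hr)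
  have hr1 : 1 ≤ r := (one_le_pow₀ hB1).trans hr3
  set T := y / k with hT
  have hT0 : 0 < T := by positivity
  set P := r ^ 16 with hP
  have hP3 : B ^ 3 ≤ P := hr3.trans (le_self_pow₀ hr1 (by norm_num))
  have hBP : B ≤ P := (le_self_pow₀ hB1 (by norm_num)).trans hP3
  have hP0 : 0 < P := by linarith
  have hY0 : 0 < Y := by linarith
  have hYz' : Y ≤ z := by
    have : Y * B ≤ z * B := hYz ▸ mul_le_mul_of_nonneg_left hBP hY0.le
    exact le_of_mul_le_mul_right this hB0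
  have hz1 : 1 ≤ z := hY1.trans hYz'
  have hz0 : 0 < z := by linarith
  have hσ0 : 0 ≤ σ := hσ ▸ Finset.sum_nonneg fun _ _ => by positivity
  have hu : 0 < u := lt_of_lt_of_le (by simp) (hD 1 one_ne_zero (by
    simpa using (one_le_pow₀ (one_le_mul_of_one_le_of_one_le hz1 hz1)).trans hZ2))
  have hzZ : z * z ≤ Z := (le_self_pow₀ (one_le_mul_of_one_le_of_one_le hz1 hz1) (by omega)).trans hZ2
  set W := k * dd PP with hW
  set G₀ := GG W z with hG₀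
  set G₁ := GG W Y with hG₁
  have hG1 : 1 ≤ G₁ := one_le_GG hY1
  have hG01 : G₁ ≤ G₀ := GG_mono hYz'
  set Γ := u ^ 4 * G₀ ^ 2 with hΓ
  have hΓ0 : 0 < Γ := mul_pos (pow_pos hu 4) (pow_pos (by linarith only [hG1, hG01]) 2)
  have hex : ∀ z₁ z₂ : ℝ, 1 ≤ z₂ → z₂ ≤ z₁ → z₁ ≤ z → ∃ (MM : Finset ℕ) (γ : ℕ → ℝ),
      (∀ n, UU W z₁ n * UU W z₂ n = ∑ m ∈ MM, γ m * dv m n) ∧ ∑ m ∈ MM, γ m / m = GG W z₂ ∧
      (∀ m ∈ MM, |γ m| ≤ Γ) ∧ (∀ m ∈ MM, m ≠ 0 ∧ (m : ℝ) ≤ z₁ * z₂ ∧ Nat.Coprime m k) ∧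
      ∀ m ∈ MM, ∀ p ∈ PP, Nat.Coprime m p := by
    intro z₁ z₂ h0 h1 h2
    obtain ⟨MM, γ, a1, a2, a3⟩ := exists_gamma W h1
    refine ⟨MM, γ, a1, a2, fun m hm => (a3 m hm).2.trans ?_, fun m hm => ⟨(a3 m hm).1.1,
      (a3 m hm).1.2.1, (a3 m hm).1.2.2.coprime_mul_right_right⟩, fun m hm p hp =>
      Nat.Coprime.coprime_dvd_right (Finset.dvd_prod_of_mem _ hp)
        (a3 m hm).1.2.2.coprime_mul_left_right⟩
    have b1 := hD m (a3 m hm).1.1 ((a3 m hm).1.2.1.trans (le_trans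
      (mul_le_mul h2 (h1.trans h2) (by linarith) hz0.le) hzZ))
    have b2 : GG W z₁ ≤ G₀ := GG_mono h2
    have b3 : GG W z₂ ≤ G₀ := GG_mono (h1.trans h2)
    have b4 : 1 ≤ GG W z₂ := one_le_GG h0
    have b5 : 1 ≤ GG W z₁ := one_le_GG (h0.trans h1)
    have b6 : 0 ≤ G₀ := by linarith
    rw [hΓ, sq]
    exact mul_le_mul (pow_le_pow_left₀ (Nat.cast_nonneg _) b1 4)
      (mul_le_mul b2 b3 (zero_le_one.trans b4) b6)
      (mul_nonneg (zero_le_one.trans b5) (zero_le_one.trans b4)) (pow_pos hu 4).le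
  obtain ⟨M1, γ1, a1, a2, a3, a4, -⟩ := hex z z hz1 le_rfl le_rfl
  obtain ⟨M2, γ2, b1, b2, b3, b4, b5⟩ := hex z Y hY1 hYz' le_rfl
  obtain ⟨M3, γ3, c1, c2, c3, c4, c5⟩ := hex Y Y hY1 le_rfl hYz'
  have h1 : ∀ p ∈ ({1} : Finset ℕ), p ≠ 0 ∧ (p : ℝ) ≤ 1 ∧ Nat.Coprime p k := by simp
  have hPP' : ∀ p ∈ PP, p ≠ 0 ∧ (p : ℝ) ≤ P * B ∧ Nat.Coprime p k := fun p hp =>
    ⟨(hpr p hp).ne_zero, (hPP p hp).2⟩
  have htr : ∀ w : ℝ, 0 ≤ w → w ≤ z * z →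
      Γ * (4 * C * (1 : ℕ) / T) * w ^ 2 ≤ Γ * (4 * C / b ^ 2 * T) := by
    intro w h0 h
    calc _ ≤ Γ * (4 * C * (1 : ℕ) / T) * (T / b) ^ 2 :=
          mul_le_mul_of_nonneg_left (pow_le_pow_left₀ h0 (h.trans hzb) 2) (mul_nonneg hΓ0.le
            (div_nonneg (mul_nonneg (by linarith only [hC]) (Nat.cast_nonneg _)) hT0.le))
      _ = _ := by push_cast; field_simp
  have hYY : Y * Y ≤ z * z := by gcongr
  have hzY : z * Y ≤ z * z := by gcongr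
  have hzT : z * z ≤ T := hzb.trans (div_le_self hT0.le hb)
  have E4 := rem_avg hg hkg H hy one_ne_zero (Nat.coprime_one_left k) M2 PP γ2 hΓ0 b3 b4 hPP
    ((pow_le_pow_left₀ (by positivity) hzY _).trans hZ2)
    (one_le_mul_of_one_le_of_one_le hz1 hY1)
    (hM2.trans (pow_le_pow_left₀ (by positivity) (by gcongr) _))
    (by rw [Nat.cast_one, one_mul, mul_assoc, hYz, ← mul_assoc]; exact hzB)
    (by
      calc ((1 : ℕ) : ℝ) * (z * Y) * (P * B) = z * (Y * P) * B := by push_cast; ring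
        _ = z * z * B ^ 2 := by rw [hYz]; ring
        _ ≤ T * B ^ 4 := by gcongr; norm_num) X hX hF
  have E6 : ∀ q ∈ PP, ∑ a ∈ X,
      |∑ m ∈ M3, ∑ p ∈ PP.erase q, γ3 m * rem g k a.2 (a.1 - y) y (q * m * p)| ≤
      X.card * (Γ * (6 * C + 8) * T / B) * (q : ℝ)⁻¹ := fun q hq =>
    (rem_avg hg hkg H hy (hpr q hq).ne_zero (hPP q hq).2.2 M3 (PP.erase q) γ3 hΓ0 c3 c4
      (fun p hp => hPP p (Finset.mem_of_mem_erase hp))
      ((pow_le_pow_left₀ (by positivity) hYY _).trans hZ2)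
      (one_le_mul_of_one_le_of_one_le hY1 hY1) hM2
      (by
        have := (hPP q hq).1
        calc T ≤ z * z * B := hzB
          _ ≤ z * z * B ^ 2 := by gcongr; exact le_self_pow₀ hB1 two_ne_zero
          _ = (Y * P) ^ 2 := by rw [hYz]; ring
          _ = P * (Y * Y) * P := by ring
          _ ≤ q * (Y * Y) * P := by gcongr)
      (by
        have := (hPP q hq).2.1
        calc q * (Y * Y) * (P * B) ≤ P * B * (Y * Y) * (P * B) := by gcongr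
          _ = (Y * P) ^ 2 * B ^ 2 := by ring
          _ = z * z * B ^ 4 := by rw [hYz]; ring
          _ ≤ T * B ^ 4 := by gcongr) X hX hF).trans (le_of_eq (by ring))
  have hI : 0 ≤ (∫ v, g v) * T := mul_nonneg (MeasureTheory.integral_nonneg hg.nonneg) hT0.le
  set I := (∫ v, g v) * T with hIdef
  have hpt : ∀ (l : ZMod k) (x₀ : ℝ), ∑ n ∈ win k l x₀ y, g ((n - x₀) / y) *
      (UU W z n + UU W Y n * (σ - ∑ p ∈ PP, dv p n)) ^ 2 ≤
      I * (G₀ + σ * G₁) + 13 / 4 * (Γ * (4 * C / b ^ 2 * T)) +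
        (2 * |∑ m ∈ M2, ∑ p ∈ PP, γ2 m * rem g k l x₀ y (1 * m * p)| +
          ∑ q ∈ PP, |∑ m ∈ M3, ∑ p ∈ PP.erase q, γ3 m * rem g k l x₀ y (q * m * p)|) := by
    intro l x₀
    have B1 := block g k l x₀ y a1 a2 1 {1} (by simp)
    have B2 := block g k l x₀ y b1 b2 1 {1} (by simp)
    have B3 := block g k l x₀ y c1 c2 1 {1} (by simp)
    have B4 := block g k l x₀ y b1 b2 1 PP fun m hm p hp => by simpa using b5 m hm p hp
    have B5 := block g k l x₀ y c1 c2 1 PP fun m hm p hp => by simpa using c5 m hm p hp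
    have B6 := fun q (hq : q ∈ PP) => block g k l x₀ y c1 c2 q (PP.erase q) fun m hm p hp =>
      ⟨(c5 m hm q hq).symm, Nat.Coprime.mul_left ((Nat.coprime_primes (hpr q hq)
        (hpr p (Finset.mem_of_mem_erase hp))).2 (Finset.ne_of_mem_erase hp).symm)
        (c5 m hm p (Finset.mem_of_mem_erase hp))⟩
    have E1 := (rem_sum_triv hg k l x₀ hy one_ne_zero (Nat.coprime_one_left k) M1 {1} γ1 hΓ0.le
      a3 (by positivity) zero_le_one a4 h1).trans (htr _ (by positivity) (by linarith))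
    have E2 := (rem_sum_triv hg k l x₀ hy one_ne_zero (Nat.coprime_one_left k) M2 {1} γ2 hΓ0.le
      b3 (by positivity) zero_le_one b4 h1).trans (htr _ (by positivity) (by linarith))
    have E3 := (rem_sum_triv hg k l x₀ hy one_ne_zero (Nat.coprime_one_left k) M3 {1} γ3 hΓ0.le
      c3 (by positivity) zero_le_one c4 h1).trans (htr _ (by positivity) (by linarith))
    have E5 := (rem_sum_triv hg k l x₀ hy one_ne_zero (Nat.coprime_one_left k) M3 PP γ3 hΓ0.le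
      c3 (by positivity) (by positivity) c4 hPP').trans (htr _ (by positivity) (by
        have : Y * Y * (P * B) * P ≤ z * z * P := by
          calc Y * Y * (P * B) * P = (Y * P) ^ 2 * B := by ring
            _ = z * z * B ^ 3 := by rw [hYz]; ring
            _ ≤ _ := by gcongr
        exact le_of_mul_le_mul_right this hP0))
    have S6 : ∑ q ∈ PP, ∑ n ∈ win k l x₀ y, g ((n - x₀) / y) *
        (UU W Y n * UU W Y n * (dv q n * ∑ p ∈ PP.erase q, dv p n)) ≤ I * (G₁ * σ) * σ +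
        ∑ q ∈ PP, |∑ m ∈ M3, ∑ p ∈ PP.erase q, γ3 m * rem g k l x₀ y (q * m * p)| := by
      have e : I * (G₁ * σ) * σ = ∑ q ∈ PP, I * (G₁ * σ) * (q : ℝ)⁻¹ := by
        rw [← Finset.mul_sum, hσ]
      rw [e, ← Finset.sum_add_distrib]
      refine Finset.sum_le_sum fun q hq => ?_
      rw [B6 q hq]
      refine add_le_add ?_ (le_abs_self _)
      have : ∑ p ∈ PP.erase q, (p : ℝ)⁻¹ ≤ σ := hσ ▸ Finset.sum_le_sum_of_subset_of_nonneg
        (Finset.erase_subset _ _) fun _ _ _ => inv_nonneg.2 (Nat.cast_nonneg _)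
      calc I * (G₁ * ((q : ℝ)⁻¹ * ∑ p ∈ PP.erase q, (p : ℝ)⁻¹)) ≤ I * (G₁ * ((q : ℝ)⁻¹ * σ)) :=
            mul_le_mul_of_nonneg_left (mul_le_mul_of_nonneg_left (mul_le_mul_of_nonneg_left this
              (inv_nonneg.2 (Nat.cast_nonneg _))) (zero_le_one.trans hG1)) hI
        _ = _ := by ring
    rw [expand_sum, B1, B2, B3, B4, B5]
    simp only [Finset.sum_singleton, Nat.cast_one, inv_one, one_mul, mul_one, hσ] at E1 E2 E3 E5 ⊢
    exact final_num' hσ0 hσ1 E1 E2 E3 E5 S6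
  refine (Finset.sum_le_sum fun a _ => hpt a.2 (a.1 - y)).trans ?_
  rw [Finset.sum_add_distrib, Finset.sum_add_distrib (s := X) (f := fun a => 2 * _),
    ← Finset.mul_sum, Finset.sum_const, nsmul_eq_mul, Finset.sum_comm]
  have S7 := Finset.sum_le_sum E6
  rw [← Finset.mul_sum, hσ] at S7
  have S8 : X.card * (Γ * (6 * C + 8) * T / B) * σ ≤ X.card * (Γ * (6 * C + 8) * T / B) * (1 / 2) :=
    mul_le_mul_of_nonneg_left hσ1 (by positivity)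
  refine (add_le_add le_rfl (add_le_add (mul_le_mul_of_nonneg_left E4 zero_le_two)
    (S7.trans S8))).trans (le_of_eq ?_)
  rw [hΓ]; push_cast; ring

end Pool.Agent.P.MP_26a8c3_nt.Sp
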