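import Pool.Agent.P.MP_26a8c3_nt.Sp.B

/-! A large well spaced family contains a segment with few primes. -/

namespace Pool.Agent.P.MP_26a8c3_nt.Sp

open Finset Pool.Agent.P.MP_26a8c3_nt.Hyb

lemma primes_dich {P B L a : ℝ} (hP : 320000 ≤ P) {J : ℕ} (k : ℕ) (hJ : 8 ^ J ≤ B)
    (hL : Real.log (P * B) ≤ L) (ha : P⁻¹ ≤ a) (h : 2 * a ≤ J / (4 * L)) :
    ∃ PP : Finset ℕ, (∀ p ∈ PP, p.Prime ∧ P ≤ p ∧ (p : ℝ) ≤ P * B) ∧
      (a ≤ ∑ p ∈ PP, (p : ℝ)⁻¹ ∧ ∑ p ∈ PP, (p : ℝ)⁻¹ ≤ 2 * a) ∧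
      ((∀ p ∈ PP, ¬ p ∣ k) ∨ ∀ p ∈ PP, p ∣ k) := by
  have hP0 : 0 < P := by linarith
  have hB : P * 8 ^ J ≤ P * B := by gcongr
  have h1 := sum_block hP J ((Real.log_le_log (by positivity) hB).trans hL)
  set S := (Finset.Ioc ⌊P⌋₊ ⌊P * 8 ^ J⌋₊).filter Nat.Prime with hS
  have hS1 : ∀ p ∈ S, p.Prime ∧ P ≤ p ∧ (p : ℝ) ≤ P * B := fun p hp => by
    obtain ⟨a1, a2⟩ := Finset.mem_filter.1 hp
    obtain ⟨b1, b2⟩ := Finset.mem_Ioc.1 a1
    exact ⟨a2, ((Nat.floor_lt hP0.le).1 b1).le,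
      ((Nat.cast_le.2 b2).trans (Nat.floor_le (by positivity))).trans hB⟩
  have key : ∀ (c : ℕ → Prop) [DecidablePred c], a ≤ ∑ p ∈ S.filter c, (p : ℝ)⁻¹ →
      ∃ PP : Finset ℕ, (∀ p ∈ PP, p.Prime ∧ P ≤ p ∧ (p : ℝ) ≤ P * B) ∧
        (a ≤ ∑ p ∈ PP, (p : ℝ)⁻¹ ∧ ∑ p ∈ PP, (p : ℝ)⁻¹ ≤ 2 * a) ∧ ∀ p ∈ PP, c p := by
    intro c _ hc
    obtain ⟨PP, c1, c2⟩ := greedy (S.filter c) (fun p => (p : ℝ)⁻¹) (le_trans (by positivity) ha)
      (fun p hp => (inv_anti₀ hP0 (hS1 p (Finset.mem_filter.1 hp).1).2.1).trans ha) hc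
    exact ⟨PP, fun p hp => hS1 p (Finset.mem_filter.1 (c1 hp)).1, c2,
      fun p hp => (Finset.mem_filter.1 (c1 hp)).2⟩
  rw [← Finset.sum_filter_add_sum_filter_not S (· ∣ k)] at h1
  by_cases hc : a ≤ ∑ p ∈ S.filter (· ∣ k), (p : ℝ)⁻¹
  · obtain ⟨PP, c1, c2, c3⟩ := key _ hc
    exact ⟨PP, c1, c2, Or.inr c3⟩
  · obtain ⟨PP, c1, c2, c3⟩ := key (fun p => ¬ p ∣ k) (by linarith [not_le.1 hc])
    exact ⟨PP, c1, c2, Or.inl c3⟩

lemma prod_mul_le (Q : Finset ℕ) (hQ : ∀ p ∈ Q, p.Prime) :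
    (∏ p ∈ Q, (1 - (p : ℝ)⁻¹)) * (1 + ∑ p ∈ Q, (p : ℝ)⁻¹) ≤ 1 := by
  induction Q using Finset.induction_on with
  | empty => simp
  | insert q Q hq ih =>
    have h := ih fun p hp => hQ p (Finset.mem_insert_of_mem hp)
    have h0 : 0 ≤ ∏ p ∈ Q, (1 - (p : ℝ)⁻¹) := Finset.prod_nonneg fun p hp =>
      sub_nonneg.2 (Nat.cast_inv_le_one p)
    have h1 : 0 ≤ ∑ p ∈ Q, (p : ℝ)⁻¹ := Finset.sum_nonneg fun _ _ => by positivity
    have h2 : 0 ≤ (q : ℝ)⁻¹ := by positivity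
    rw [Finset.prod_insert hq, Finset.sum_insert hq]
    nlinarith [mul_nonneg h0 (mul_nonneg h2 (add_nonneg h1 h2))]

lemma tot_eq {k : ℕ} (hk : k ≠ 0) :
    (k.totient : ℝ) / k = ∏ p ∈ k.primeFactors, (1 - (p : ℝ)⁻¹) := by
  have := congrArg (Rat.cast : ℚ → ℝ) (Nat.totient_eq_mul_prod_factors k)
  push_cast at this
  rw [this, mul_div_cancel_left₀ _ (by exact_mod_cast hk)]

lemma GG_dvd {k : ℕ} (hk : k ≠ 0) (Q : Finset ℕ) (hpr : ∀ p ∈ Q, p.Prime) (hQ : ∀ p ∈ Q, p ∣ k)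
    {z w : ℝ} (hz : 0 ≤ z) (hw : 1 ≤ w) (hzw : ∀ p ∈ Q, z / p ≤ w) : ∃ c : ℝ,
    (k.totient : ℝ) / k * (1 + ∑ p ∈ Q, (p : ℝ)⁻¹) ≤ c ∧
    c * (Real.log z - (∑ p ∈ Q, (p : ℝ)⁻¹) * (1 + Real.log w)) ≤ GG (k * dd ∅) z := by
  have hsub : Q ⊆ k.primeFactors := fun p hp => Nat.mem_primeFactors.2 ⟨hpr p hp, hQ p hp, hk⟩
  have h1 : ∀ p ∈ k.primeFactors \ Q, p.Prime := fun p hp =>
    Nat.prime_of_mem_primeFactors (Finset.mem_sdiff.1 hp).1
  have h2 := (dd_pos h1).ne'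
  refine ⟨_, ?_, (GG_ge h2 Q hpr hz hw hzw).trans (le_of_eq ?_)⟩
  · rw [tot_eq hk, tot_eq h2, dd, Nat.primeFactors_prod h1, ← Finset.prod_sdiff hsub, mul_assoc]
    exact mul_le_of_le_one_right (Finset.prod_nonneg fun p _ =>
      sub_nonneg.2 (Nat.cast_inv_le_one p)) (prod_mul_le Q hpr)
  · have e : ∀ p : ℕ, p.Prime → (Nat.Coprime p (dd (k.primeFactors \ Q) * dd Q) ↔
        Nat.Coprime p (k * dd ∅)) := by
      intro p hp
      rw [dd, dd, Finset.prod_sdiff hsub, dd, Finset.prod_empty, mul_one, hp.coprime_iff_not_dvd,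
        hp.coprime_iff_not_dvd]
      exact not_congr ⟨fun h => h.trans (Nat.prod_primeFactors_dvd k),
        fun h => Finset.dvd_prod_of_mem _ (Nat.mem_primeFactors.2 ⟨hp, h, hk⟩)⟩
    rw [GG, GG]
    congr 1
    ext U
    rw [mem_LL, mem_LL]
    exact and_congr_left' (forall₂_congr fun p _ => and_congr_right (e p))

lemma G_num' {n σ L lz lP c c' G : ℝ} (hn : 1 ≤ n) (h1 : 1 / (4 * n) ≤ σ)
    (h2 : σ ≤ 2 * (1 / (4 * n))) (hL : 1 ≤ L) (hc : 0 ≤ c) (hz : lz = (48 * n ^ 2 - 6) * L)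
    (hP : 192 * n * L ≤ lP) (a : c * (1 + σ) ≤ c') (b : c' * (lz - σ * (1 + (lz - lP))) ≤ G) :
    c * ((48 * n ^ 2 + 14) * L) ≤ G := by
  have hn0 : 0 < n := by linarith
  have t1 : 1 / 4 ≤ n * σ := by
    rw [div_le_iff₀ (by positivity)] at h1; linarith
  have t2 : n * σ ≤ 1 / 2 := by
    have : n * (2 * (1 / (4 * n))) = 1 / 2 := by field_simp; ring
    rw [← this]; gcongr
  have hσ : 0 ≤ σ := le_trans (by positivity) h1
  have t3 : σ ≤ 1 / 2 := (le_mul_of_one_le_left hσ hn).trans t2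
  have t4 := mul_le_mul_of_nonneg_left hP hσ
  have t5 : 36 * L ≤ (192 * (n * σ) - 48 * (n * σ) ^ 2) * L :=
    mul_le_mul_of_nonneg_right (by nlinarith) (by linarith)
  have t7 : 0 ≤ σ ^ 2 * lP := mul_nonneg (sq_nonneg _) (le_trans (by positivity) hP)
  have t8 : 0 ≤ σ ^ 2 * L := by positivity
  have t6 : (48 * n ^ 2 + 14) * L ≤ (1 + σ) * (lz - σ * (1 + (lz - lP))) := by
    rw [hz]; nlinarith
  have t9 : 0 ≤ lz - σ * (1 + (lz - lP)) :=
    nonneg_of_mul_nonneg_right (le_trans (by positivity) t6) (by linarith) 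
  calc _ ≤ c * ((1 + σ) * (lz - σ * (1 + (lz - lP)))) := mul_le_mul_of_nonneg_left t6 hc
    _ ≤ c' * (lz - σ * (1 + (lz - lP))) := by
      rw [← mul_assoc]; exact mul_le_mul_of_nonneg_right a t9
    _ ≤ G := b

/-- The number of primes in a segment. -/
noncomputable def np (k : ℕ) (y : ℝ) (a : ℝ × ℤ) : ℝ :=
  (({p : ℕ | p.Prime ∧ a.1 - y < (p : ℝ) ∧ (p : ℝ) ≤ a.1 ∧
    (p : ℤ) ≡ a.2 [ZMOD (k : ℤ)]}.ncard : ℕ) : ℝ)

theorem core_avg {K n N : ℕ} (hK : 1 ≤ K) (hn : 20 ≤ n) (hN : 3 ≤ N) : ∃ u₀ : ℝ,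
    ∀ (k k₀ g' : ℕ) (y u r s Λ : ℝ) (X : Finset (ℝ × ℤ)), 1 ≤ k → k = g' * k₀ → u₀ ≤ u →
    y / k = u ^ (96 * n ^ 2) → s * r ^ 4 = r ^ (16 * K) → s ^ 2 = k₀ * Λ → 1 ≤ Λ →
    ((u ^ (96 * n)) ^ N) ^ (30 * K ^ 2) ≤ r → r ^ 320 ≤ u ^ (96 * n ^ 2) →
    2 * (u ^ (96 * n)) ^ 32 ≤ X.card →
    (∀ a ∈ X, ∀ b ∈ X, a ≠ b → Far k₀ g' y Λ (((u ^ (96 * n)) ^ N) ^ 4) a b) → ∃ a ∈ X,
    np k y a < (2 - 1 / (5 * (n : ℝ) ^ 2)) * y / ((Nat.totient k : ℝ) * Real.log (y / (k : ℝ))) := by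
  have hn' : (20 : ℝ) ≤ n := by exact_mod_cast hn
  have hK' : (1 : ℝ) ≤ K := by exact_mod_cast hK
  have hm : (1 : ℝ) ≤ (n : ℝ) ^ 2 := one_le_pow₀ (by linarith)
  obtain ⟨g, C, hg, hg1, hgI⟩ := exists_good (κ := 1 / (32 * (n : ℝ) ^ 2)) (by positivity)
    (by rw [div_le_one (by positivity)]; linarith)
  obtain ⟨D, hD1, hD⟩ := div_bound (ε := ((96 * n ^ 2 * (3 * K) * 2 : ℕ) : ℝ)⁻¹) (by positivity)
  have hC := hg.pos
  refine ⟨D ^ 2 + 32 * K ^ 2 + 320000 + 6 * K * n + Real.exp 12 +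
    (28 * C + 21) * (480 * ((n : ℝ) ^ 2) ^ 2),
    fun k k₀ g' y u r s Λ X hk hkg hu hT hs hs2 hΛ hr hr2 hX hF => ?_⟩
  have p1 : 0 ≤ D ^ 2 := by positivity
  have p2 : (0 : ℝ) ≤ 32 * K ^ 2 := by positivity
  have p3 : (0 : ℝ) ≤ 6 * K * n := by positivity
  have p4 : 0 < Real.exp 12 := Real.exp_pos _
  have p5 : 0 ≤ (28 * C + 21) * (480 * ((n : ℝ) ^ 2) ^ 2) := by positivity
  have hu1 : 1 ≤ u := by linarith
  have hu0 : 0 < u := by linarith
  have hk0 : k ≠ 0 := by omega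
  have : NeZero k := ⟨hk0⟩
  have hk' : (0 : ℝ) < k := by exact_mod_cast hk
  have hn2 : n ≤ n ^ 2 := Nat.le_self_pow two_ne_zero n
  have hT0 : 0 < y / k := by rw [hT]; positivity
  have hy : 0 < y := by
    have := mul_pos hT0 hk'
    rwa [div_mul_cancel₀ _ hk'.ne'] at this
  have pw : ∀ {a c : ℕ}, a ≤ c → u ^ a ≤ u ^ c := fun h => pow_le_pow_right₀ hu1 h
  set L := Real.log u with hL
  have hL12 : 12 ≤ L := (Real.le_log_iff_exp_le hu0).2 (by linarith)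
  set B := u ^ (96 * n) with hB
  have huB : u ≤ B := le_self_pow₀ hu1 (by omega)
  have hB1 : 1 ≤ B := hu1.trans huB
  have hB0 : 0 < B := by linarith
  have hK2 : 1 ≤ K ^ 2 := Nat.one_le_pow _ _ hK
  have hBN : B ≤ B ^ N := le_self_pow₀ hB1 (by omega)
  have hNr : B ^ N ≤ r := (le_self_pow₀ (hB1.trans hBN) (by omega)).trans hr
  have hBr : B ≤ r := hBN.trans hNr
  have hr1 : 1 ≤ r := hB1.trans hBr
  set P := r ^ 16 with hP
  have hBP : B ≤ P := hBr.trans (le_self_pow₀ hr1 (by norm_num))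
  have hP0 : 0 < P := by linarith
  have hPB : (P * B) ^ 10 ≤ u ^ (96 * n ^ 2) := by
    refine le_trans ?_ hr2
    calc (P * B) ^ 10 ≤ (P * P) ^ 10 := by gcongr
      _ = r ^ 320 := by rw [hP]; ring
  have hPB2 : P * B ≤ u ^ (10 * n ^ 2) := by
    refine le_of_pow_le_pow_left₀ (n := 10) (by norm_num) (by positivity) (hPB.trans ?_)
    rw [← pow_mul]; exact pw (by omega)
  have hPPB : P ≤ P * B := le_mul_of_one_le_right hP0.le hB1
  obtain ⟨j, hj⟩ : ∃ j, 48 * n ^ 2 = j + 6 := ⟨48 * n ^ 2 - 6, by omega⟩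
  set z := u ^ j with hz
  have hz0 : 0 < z := by positivity
  have hPz : P * B ≤ z := hPB2.trans (pw (by omega))
  set Y := z * B / P with hY
  have hYP : Y * P = z * B := by rw [hY]; field_simp
  have hYz : Y ≤ z := by rw [hY, div_le_iff₀ hP0]; gcongr
  have hPY : P ≤ Y := by
    rw [hY, le_div_iff₀ hP0]
    calc P * P ≤ u ^ (10 * n ^ 2) * u ^ (10 * n ^ 2) := by gcongr <;> exact hPPB.trans hPB2
      _ ≤ z := by rw [← pow_add]; exact pw (by omega)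
      _ ≤ z * B := le_mul_of_one_le_right hz0.le hB1
  have hY1 : 1 ≤ Y := (hB1.trans hBP).trans hPY
  have hs0 : 0 < s := by
    have : 0 < s * r ^ 4 := by rw [hs]; positivity
    exact (mul_pos_iff_of_pos_right (by positivity)).1 this
  have hsP : s ≤ P ^ K := by
    rw [hP, ← pow_mul, ← hs]; exact le_mul_of_one_le_right hs0.le (one_le_pow₀ hr1)
  have hlz : Real.log z = (48 * (n : ℝ) ^ 2 - 6) * L := by
    have : (48 : ℝ) * n ^ 2 = j + 6 := by exact_mod_cast hj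
    rw [hz, Real.log_pow, this]; ring
  have hzP : 1 ≤ z / P := (one_le_div hP0).2 (hPPB.trans hPz)
  have hφ0 : (0 : ℝ) ≤ k.totient / k := by positivity
  obtain ⟨PP, σ, hpr, hPP, hσ, hσ3, hGl⟩ : ∃ (PP : Finset ℕ) (σ : ℝ), (∀ p ∈ PP, p.Prime) ∧
      (∀ p ∈ PP, P ≤ p ∧ (p : ℝ) ≤ P * B ∧ Nat.Coprime p k) ∧ ∑ p ∈ PP, (p : ℝ)⁻¹ = σ ∧
      σ ≤ 1 / 2 ∧ (k.totient : ℝ) / k * ((48 * (n : ℝ) ^ 2 + 14) * L) ≤
        GG (k * dd PP) z + σ * GG (k * dd PP) Y := by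
    obtain ⟨PP, hPP, ⟨hσ1, hσ2⟩, hc⟩ := primes_dich (P := P) (B := B) (L := 96 * n ^ 2 * L / 10)
      (a := 1 / (4 * n)) (by linarith) (J := ⌊L / 3⌋₊ * (96 * n)) k (by
      rw [pow_mul, hB]
      refine pow_le_pow_left₀ (by positivity) ?_ _
      have a : (⌊L / 3⌋₊ : ℝ) ≤ L / 3 := Nat.floor_le (by positivity)
      have b : (8 : ℝ) ≤ Real.exp 3 := by
        have := Real.add_one_le_exp 1
        rw [show (3 : ℝ) = (3 : ℕ) * 1 by norm_num, Real.exp_nat_mul]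
        calc (8 : ℝ) = 2 ^ 3 := by norm_num
          _ ≤ _ := by gcongr; linarith
      calc (8 : ℝ) ^ ⌊L / 3⌋₊ ≤ Real.exp 3 ^ ⌊L / 3⌋₊ := by gcongr
        _ = Real.exp (⌊L / 3⌋₊ * 3) := (Real.exp_nat_mul _ _).symm
        _ ≤ Real.exp L := by gcongr; linarith
        _ = u := Real.exp_log hu0) (by
      have := Real.log_le_log (by positivity) hPB
      rw [Real.log_pow, Real.log_pow] at this
      push_cast at this
      linarith) (by
      rw [one_div]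
      exact inv_anti₀ (by positivity) (by
        have := mul_le_mul_of_nonneg_right hK' (Nat.cast_nonneg (α := ℝ) n)
        linarith only [this, hu, huB, hBP, p1, p2, p4, p5, hn'])) (by
      have a : L / 4 ≤ (⌊L / 3⌋₊ : ℝ) := by linarith [Nat.lt_floor_add_one (L / 3)]
      calc _ = 4 / (8 * (n : ℝ)) := by field_simp; ring
        _ ≤ 5 / (8 * (n : ℝ)) := by gcongr; norm_num
        _ = L / 4 * (96 * n) / (4 * (96 * n ^ 2 * L / 10)) := by field_simp; ring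
        _ ≤ _ := by push_cast; gcongr)
    have hpr : ∀ p ∈ PP, p.Prime := fun p hp => (hPP p hp).1
    have hzp : ∀ p ∈ PP, z / p ≤ z / P :=
      fun p hp => div_le_div_of_nonneg_left hz0.le hP0 (hPP p hp).2.1
    rcases hc with hc | hc
    · refine ⟨PP, _, hpr, fun p hp => ⟨(hPP p hp).2.1, (hPP p hp).2.2,
        (hpr p hp).coprime_iff_not_dvd.2 (hc p hp)⟩, rfl, hσ2.trans (by
          rw [mul_one_div, div_le_div_iff₀ (by positivity) (by norm_num)]; linarith), ?_⟩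
      exact G_num (n := n) (lP := Real.log P) (by linarith) hσ1 hσ2 (by linarith : 1 ≤ L) hφ0
        (lz := Real.log z) (lY := Real.log Y) hlz
        (by
          rw [← Real.log_mul (by linarith) hP0.ne', hYP, Real.log_mul hz0.ne' hB0.ne', hB,
            Real.log_pow u (96 * n)]
          push_cast; ring)
        (Real.log_le_log (by linarith) hYz)
        (by
          rw [← Real.log_div hz0.ne' hP0.ne']
          exact GG_ge hk0 PP hpr hz0.le hzP hzp)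
        (GG_ge hk0 PP hpr (by linarith) hY1 fun p hp =>
          div_le_self (by linarith) (by exact_mod_cast (hpr p hp).one_le))
    · obtain ⟨c, c1, c2⟩ := GG_dvd hk0 PP hpr hc hz0.le hzP hzp
      refine ⟨∅, 0, by simp, by simp, by simp, by norm_num, ?_⟩
      rw [zero_mul, add_zero]
      rw [Real.log_div hz0.ne' hP0.ne'] at c2
      refine G_num' (n := n) (by linarith) hσ1 hσ2 (by linarith : 1 ≤ L) hφ0 hlz ?_ c1 c2
      have := Real.log_le_log (by positivity) (show B ^ 2 ≤ P from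
        (pow_le_pow_left₀ hB0.le hBr 2).trans (pow_le_pow_right₀ hr1 (by norm_num)))
      rw [Real.log_pow, hB, Real.log_pow] at this
      push_cast at this
      linarith
  have hσ0 : 0 ≤ σ := hσ ▸ Finset.sum_nonneg fun _ _ => by positivity
  have hzz : z * z * u ^ 12 = u ^ (96 * n ^ 2) := by
    rw [hz, ← pow_add, ← pow_add]; congr 1; omega
  have hDu : ∀ a : ℕ, a ≠ 0 → (a : ℝ) ≤ (u ^ (96 * n ^ 2)) ^ (3 * K) →
      (a.divisors.card : ℝ) ≤ u := fun a ha h => (hD a ha).trans (by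
      have a1 : (a : ℝ) ^ (((96 * n ^ 2 * (3 * K) * 2 : ℕ) : ℝ)⁻¹) ≤ √u := by
        rw [← Real.pow_rpow_inv_natCast (Real.sqrt_nonneg u)
          (show 96 * n ^ 2 * (3 * K) * 2 ≠ 0 by positivity)]
        refine Real.rpow_le_rpow (by positivity) ?_ (by positivity)
        rwa [mul_comm _ 2, pow_mul, Real.sq_sqrt hu0.le, pow_mul]
      have a2 : D ≤ √u := Real.le_sqrt_of_sq_le (by linarith)
      calc _ ≤ √u * √u := by gcongr
        _ = u := Real.mul_self_sqrt hu0.le)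
  have H : Par K k₀ B (B ^ N) r s ((u ^ (96 * n ^ 2)) ^ (3 * K)) Λ :=
    ⟨hK, by linarith, pow_le_pow_right₀ hB1 hN, fun a ha h => (hDu a ha h).trans (huB.trans hBN),
      pow_le_pow_left₀ (by positivity) (le_trans (by
        calc r ^ 16 * B ^ N ≤ r ^ 16 * r := by gcongr
          _ = r ^ 17 := by ring
          _ ≤ _ := pow_le_pow_right₀ hr1 (by norm_num)) hr2) _, by linarith, hr, hs, hΛ, hs2⟩
  have hS := sieve_avg hg hkg H (u := u) (b := u ^ 6) (z := z) (Y := Y) hy PP hpr hPP hσ hσ3 hDu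
    (pow_le_pow_left₀ (by positivity) (by rw [hz, ← pow_add]; exact pw (by omega)) _)
    hY1 (hsP.trans (pow_le_pow_left₀ hP0.le
      (hPY.trans (le_mul_of_one_le_left (zero_le_one.trans hY1) hY1)) _)) hYP
    (one_le_pow₀ hu1) (by
      rw [le_div_iff₀ (by positivity), hT, ← hzz]; gcongr; norm_num) (by
      rw [hT, ← hzz]; gcongr; exact pw (by omega)) X hX hF
  have hE0 : 0 ≤ u ^ 4 * (13 * C / (u ^ 6) ^ 2 + (15 * C + 20) / B) * (y / k) := by positivity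
  set G₀ := GG (k * dd PP) z with hG₀
  set G₁ := GG (k * dd PP) Y with hG₁
  have hG1 : 1 ≤ G₁ := one_le_GG hY1
  have hG0 : 1 ≤ G₀ := one_le_GG (hY1.trans hYz)
  have hG2 : G₀ ≤ G₀ + σ * G₁ := le_add_of_nonneg_right (mul_nonneg hσ0 (zero_le_one.trans hG1))
  have hGp : 0 < G₀ + σ * G₁ := by linarith
  have hcnt := fun a : ℝ × ℤ => count_le hg.nonneg hg1 k a.2 (x := a.1) hy hz0.le hGp
    (fun m => UU (k * dd PP) z m + UU (k * dd PP) Y m * (σ - ∑ p ∈ PP, dv p m)) fun p hp hzp => by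
      rw [UU_prime _ hp hzp, UU_prime _ hp (hYz.trans_lt hzp), Finset.sum_eq_zero, sub_zero,
        mul_comm σ]
      intro q hq
      rw [dv, if_neg]
      intro h
      have := (Nat.prime_dvd_prime_iff_eq (hpr q hq) hp).1 (Int.natCast_dvd_natCast.1 h)
      have h2 := (hPP q hq).2.1
      rw [this] at h2
      linarith
  have hφ : (0 : ℝ) < k.totient := by exact_mod_cast Nat.totient_pos.2 hk
  have hfin := last_num (E := z + u ^ 4 * (13 * C / (u ^ 6) ^ 2 + (15 * C + 20) / B) * (y / k))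
    hm (by linarith : 0 < L) hφ (by exact_mod_cast Nat.totient_le k) hT0 hgI hGl
    (show 0 < 28 * C + 21 by positivity)
    ((Real.log_le_sub_one_of_pos hu0).trans (by linarith) : L ≤ u) (by linarith) (by
      have a1 : z ≤ y / k / u ^ 2 := by
        rw [le_div_iff₀ (by positivity), hT, hz, ← pow_add]; exact pw (by omega)
      have a2 : u ^ 4 * (13 * C / (u ^ 6) ^ 2 + (15 * C + 20) / B) ≤ (28 * C + 20) / u ^ 2 := by
        have b1 : u ^ 6 ≤ (u ^ 6) ^ 2 := le_self_pow₀ (one_le_pow₀ hu1) two_ne_zero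
        have b2 : u ^ 6 ≤ B := pw (by omega)
        calc _ ≤ u ^ 4 * (13 * C / u ^ 6 + (15 * C + 20) / u ^ 6) := by gcongr
          _ = _ := by field_simp; ring
      calc _ ≤ y / k / u ^ 2 + (28 * C + 20) / u ^ 2 * (y / k) := by gcongr
        _ = _ := by ring)
  rw [mul_div_cancel₀ _ hk'.ne'] at hfin
  have eL : Real.log (y / k) = 96 * (n : ℝ) ^ 2 * L := by rw [hT, Real.log_pow]; push_cast; ring
  rw [eL]
  have hX0 : (0 : ℝ) < X.card := lt_of_lt_of_le (by positivity) hX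
  refine Finset.exists_lt_of_sum_lt (lt_of_le_of_lt (Finset.sum_le_sum fun a _ => hcnt a) ?_)
  rw [Finset.sum_const, nsmul_eq_mul, Finset.sum_add_distrib, Finset.sum_const, nsmul_eq_mul,
    ← Finset.sum_div]
  refine lt_of_le_of_lt ?_ (mul_lt_mul_of_pos_left hfin hX0)
  rw [add_left_comm, mul_add]
  refine add_le_add_right ?_ _
  rw [div_le_iff₀ (pow_pos hGp 2), mul_assoc]
  refine hS.trans (mul_le_mul_of_nonneg_left ?_ hX0.le)
  rw [add_mul, mul_comm (G₀ ^ 2)]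
  refine add_le_add (le_of_eq ?_) (mul_le_mul_of_nonneg_left
    (pow_le_pow_left₀ (zero_le_one.trans hG0) hG2 2) hE0)
  rw [sq, ← mul_assoc, div_mul_cancel₀ _ hGp.ne']

end Pool.Agent.P.MP_26a8c3_nt.Sp
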