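import Pool.Agent.P.MP_26a8c3_nt.Sp.C

/-! Induction on two scales. -/

namespace Pool.Agent.P.MP_26a8c3_nt.Sp

open Finset Pool.Agent.P.MP_26a8c3_nt.Hyb

lemma indep {ι : Type*} [DecidableEq ι] (near : ι → ι → Prop) [DecidableRel near]
    (hs : ∀ a b, near a b → near b a) {D : ℝ} (S : Finset ι)
    (h : ∀ a ∈ S, ((S.filter (near a)).card : ℝ) ≤ D) :
    ∃ Y ⊆ S, (∀ a ∈ Y, ∀ b ∈ Y, a ≠ b → ¬ near a b) ∧ (S.card : ℝ) ≤ Y.card * (D + 1) := by
  induction S using Finset.strongInduction with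
  | H S ih =>
    rcases S.eq_empty_or_nonempty with rfl | ⟨a, ha⟩
    · exact ⟨∅, subset_rfl, by simp, by simp⟩
    set S' := (S.erase a).filter fun b => ¬ near a b with hS'
    have h1 : S' ⊆ S.erase a := Finset.filter_subset _ _
    have h2 : S' ⊆ S := h1.trans (Finset.erase_subset _ _)
    obtain ⟨Y, y1, y2, y3⟩ := ih S' (lt_of_le_of_lt h1 (Finset.erase_ssubset ha)) fun b hb =>
      (Nat.cast_le.2 (Finset.card_le_card (Finset.filter_subset_filter _ h2))).trans (h b (h2 hb))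
    have h3 : a ∉ Y := fun h => Finset.notMem_erase a S (h1 (y1 h))
    refine ⟨insert a Y, Finset.insert_subset ha (y1.trans h2), fun b hb c hc hbc => ?_, ?_⟩
    · rcases Finset.mem_insert.1 hb with rfl | hb' <;> rcases Finset.mem_insert.1 hc with rfl | hc'
      · exact absurd rfl hbc
      · exact (Finset.mem_filter.1 (y1 hc')).2
      · exact fun h => (Finset.mem_filter.1 (y1 hb')).2 (hs _ _ h)
      · exact y2 b hb' c hc' hbc
    · have h4 : _ + S'.card = _ := Finset.card_filter_add_card_filter_not (s := S.erase a) (near a)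
      have h5 := Finset.card_erase_add_one ha
      have h6 := Finset.card_le_card (Finset.filter_subset_filter (near a) (Finset.erase_subset a S))
      have h7 : (S.card : ℝ) ≤ (S.filter (near a)).card + S'.card + 1 := by
        exact_mod_cast (by omega : S.card ≤ (S.filter (near a)).card + S'.card + 1)
      rw [Finset.card_insert_of_notMem h3]
      push_cast
      linarith [h a ha]

lemma triv {k₀ g : ℕ} (hk : k₀ ≠ 0) {y W x₀ : ℝ} (hy : 0 < y) (hW : 0 ≤ W) (l₀ : ℤ)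
    (S : Finset (ℝ × ℤ))
    (hS : ∀ a ∈ S, x₀ ≤ a.1 ∧ a.1 ≤ x₀ + y * W ∧ a.2 ≡ l₀ [ZMOD (g : ℤ)])
    (hsep : ∀ a ∈ S, ∀ b ∈ S, a ≠ b → ¬ a.2 ≡ b.2 [ZMOD ((g * k₀ : ℕ) : ℤ)] ∨ y ≤ |a.1 - b.1|) :
    (S.card : ℝ) ≤ k₀ * (W + 1) := by
  have : NeZero k₀ := ⟨hk⟩
  have h1 := Finset.card_le_card_of_injOn (s := S)
    (t := (univ : Finset (ZMod k₀)) ×ˢ range (⌊W⌋₊ + 1))
    (fun a => ((((l₀ - a.2) / g : ℤ) : ZMod k₀), ⌊(a.1 - x₀) / y⌋₊)) (fun a ha => by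
      refine Finset.mem_coe.2 (Finset.mem_product.2 ⟨Finset.mem_univ _, Finset.mem_range.2
        (Nat.lt_succ_of_le (Nat.floor_le_floor ?_))⟩)
      rw [div_le_iff₀ hy]
      linarith [(hS a ha).2.1]) fun a ha b hb hab => by
      by_contra hne
      obtain ⟨e1, e2⟩ := Prod.mk.inj hab
      rcases hsep a ha b hb hne with h | h
      · obtain ⟨d, hd⟩ := (hS a ha).2.2.dvd
        obtain ⟨d', hd'⟩ := (hS b hb).2.2.dvd
        refine h (Int.modEq_iff_dvd.2 ?_)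
        rcases eq_or_ne (g : ℤ) 0 with h0 | h0
        · exact ⟨0, by rw [h0] at hd hd'; linarith⟩
        rw [hd, hd', Int.mul_ediv_cancel_left _ h0, Int.mul_ediv_cancel_left _ h0] at e1
        obtain ⟨c, hc⟩ := ((ZMod.intCast_eq_intCast_iff _ _ _).1 e1).symm.dvd
        exact ⟨c, by push_cast; linear_combination hd - hd' + g * hc⟩
      · have a1 := Nat.floor_le (div_nonneg (sub_nonneg.2 (hS a ha).1) hy.le)
        have a2 := Nat.floor_le (div_nonneg (sub_nonneg.2 (hS b hb).1) hy.le)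
        have a3 := Nat.lt_floor_add_one ((a.1 - x₀) / y)
        have a4 := Nat.lt_floor_add_one ((b.1 - x₀) / y)
        rw [e2] at a1 a3
        rw [le_div_iff₀ hy] at a1 a2
        rw [div_lt_iff₀ hy] at a3 a4
        exact absurd h (not_le.2 (abs_lt.2 ⟨by linarith, by linarith⟩))
  rw [Finset.card_product, Finset.card_univ, ZMod.card, Finset.card_range] at h1
  calc (S.card : ℝ) ≤ k₀ * (⌊W⌋₊ + 1) := by exact_mod_cast h1
    _ ≤ _ := by gcongr; exact Nat.floor_le hW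

theorem two_scale {g k₁ I : ℕ} (hk : k₁ ≠ 0) {y w E R τ : ℝ} (hy : 0 < y) (hw : 1 < w)
    (hE : 1 ≤ E) (hR : 1 ≤ R) (hτ : (k₁.divisors.card : ℝ) ≤ τ) (X : Finset (ℝ × ℤ))
    (hsep : ∀ a ∈ X, ∀ b ∈ X, a ≠ b → ¬ a.2 ≡ b.2 [ZMOD ((g * k₁ : ℕ) : ℤ)] ∨ y ≤ |a.1 - b.1|)
    (hcore : ∀ k₀ g' i : ℕ, g * k₁ = g' * k₀ → k₀ ∣ k₁ → i ≤ I → E ≤ k₀ * w ^ (i - 1) → ∀ Y ⊆ X,
      (∀ a ∈ Y, ∀ b ∈ Y, a ≠ b → Far k₀ g' y (w ^ (i - 1)) w a b) → (Y.card : ℝ) ≤ R) (m : ℕ) :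
    ∀ k₀ g' i j : ℕ, g * k₁ = g' * k₀ → k₀ ∣ k₁ → i ≤ I → i + j ≤ m → (k₀ : ℝ) ≤ w ^ j →
      ∀ (x₀ : ℝ) (l₀ : ℤ), ∀ S ⊆ X,
      (∀ a ∈ S, x₀ ≤ a.1 ∧ a.1 ≤ x₀ + y * w ^ i ∧ a.2 ≡ l₀ [ZMOD (g' : ℤ)]) →
      (S.card : ℝ) ≤ 2 * E * w * (R * (3 + τ)) ^ m := by
  classical
  have hw0 : 0 < w := by linarith
  have hτ0 : 0 ≤ τ := (Nat.cast_nonneg _).trans hτ
  have hq : 1 ≤ R * (3 + τ) := one_le_mul_of_one_le_of_one_le hR (by linarith)
  have hwi : ∀ i : ℕ, w ^ i ≤ w ^ (i - 1) * w := fun i => by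
    rw [← pow_succ]; exact pow_le_pow_right₀ hw.le (by omega)
  have small : ∀ m k₀ g' i : ℕ, g * k₁ = g' * k₀ → k₀ ∣ k₁ → k₀ * w ^ (i - 1) ≤ E →
      ∀ (x₀ : ℝ) (l₀ : ℤ), ∀ S ⊆ X,
      (∀ a ∈ S, x₀ ≤ a.1 ∧ a.1 ≤ x₀ + y * w ^ i ∧ a.2 ≡ l₀ [ZMOD (g' : ℤ)]) →
      (S.card : ℝ) ≤ 2 * E * w * (R * (3 + τ)) ^ m := by
    intro m k₀ g' i e hd h x₀ l₀ S hS hb
    have h1 := triv (ne_zero_of_dvd_ne_zero hk hd) hy (by positivity) l₀ S hb
      fun a ha b hb hab => e ▸ hsep a (hS ha) b (hS hb) hab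
    calc (S.card : ℝ) ≤ k₀ * (w ^ i + w ^ i) := h1.trans (by gcongr; exact one_le_pow₀ hw.le)
      _ ≤ k₀ * (w ^ (i - 1) * w + w ^ (i - 1) * w) := by gcongr <;> exact hwi i
      _ = 2 * (k₀ * w ^ (i - 1)) * w * 1 := by ring
      _ ≤ _ := by gcongr; exact one_le_pow₀ hq
  induction m with
  | zero =>
    intro k₀ g' i j e hd _ hij hj
    obtain ⟨rfl, rfl⟩ : i = 0 ∧ j = 0 := by omega
    exact small 0 k₀ g' 0 e hd (by simpa using hj.trans (by simpa using hE))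
  | succ m ih =>
    intro k₀ g' i j e hd hi hij hj x₀ l₀ S hS hb
    by_cases hc : k₀ * w ^ (i - 1) ≤ E
    · exact small _ k₀ g' i e hd hc x₀ l₀ S hS hb
    set c := 2 * E * w * (R * (3 + τ)) ^ m with hcd
    have hc1 : 1 ≤ c := one_le_mul_of_one_le_of_one_le
      (one_le_mul_of_one_le_of_one_le (by linarith) hw.le) (one_le_pow₀ hq)
    obtain ⟨Y, y1, y2, y3⟩ := indep (fun a b : ℝ × ℤ => (1 ≤ i ∧ |a.1 - b.1| < y * w ^ (i - 1)) ∨
      ∃ t ∈ k₁.divisors, t * w ≤ w ^ j ∧ b.2 ≡ a.2 [ZMOD ((g * (k₁ / t) : ℕ) : ℤ)])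
      (fun a b h => h.imp (fun h => ⟨h.1, by rw [abs_sub_comm]; exact h.2⟩)
        fun ⟨t, h1, h2, h3⟩ => ⟨t, h1, h2, h3.symm⟩) (D := (2 + τ) * c) S fun a _ => by
      have A : ∀ x : ℝ, ((S.filter fun b => 1 ≤ i ∧ x ≤ b.1 ∧ b.1 ≤ x + y * w ^ (i - 1)).card : ℝ)
          ≤ c := by
        intro x
        by_cases h1 : 1 ≤ i
        · exact ih k₀ g' (i - 1) j e hd (by omega) (by omega) hj x l₀ _
            ((Finset.filter_subset _ _).trans hS) fun b hb' =>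
              ⟨(Finset.mem_filter.1 hb').2.2.1, (Finset.mem_filter.1 hb').2.2.2,
                (hb b (Finset.mem_filter.1 hb').1).2.2⟩
        · simp only [h1, false_and, Finset.filter_false, Finset.card_empty, Nat.cast_zero]
          linarith
      have B : ∀ t ∈ k₁.divisors, ((S.filter fun b => t * w ≤ w ^ j ∧
          b.2 ≡ a.2 [ZMOD ((g * (k₁ / t) : ℕ) : ℤ)]).card : ℝ) ≤ c := by
        intro t ht
        have ht1 := Nat.dvd_of_mem_divisors ht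
        by_cases h1 : t * w ≤ w ^ j
        · have ht0 : (1 : ℝ) ≤ t := by exact_mod_cast Nat.pos_of_mem_divisors ht
          have hj1 : j ≠ 0 := by
            rintro rfl
            rw [pow_zero] at h1
            linarith [le_mul_of_one_le_left hw0.le ht0]
          exact ih t (g * (k₁ / t)) i (j - 1) (by rw [mul_assoc, Nat.div_mul_cancel ht1]) ht1 hi
            (by omega) (le_of_mul_le_mul_right (h1.trans (hwi j)) hw0) x₀ a.2 _
            ((Finset.filter_subset _ _).trans hS) fun b hb' =>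
              ⟨(hb b (Finset.mem_filter.1 hb').1).1, (hb b (Finset.mem_filter.1 hb').1).2.1,
                (Finset.mem_filter.1 hb').2.2⟩
        · simp only [h1, false_and, Finset.filter_false, Finset.card_empty, Nat.cast_zero]
          linarith
      have C := Finset.card_le_card (show S.filter (fun b : ℝ × ℤ =>
          (1 ≤ i ∧ |a.1 - b.1| < y * w ^ (i - 1)) ∨ ∃ t ∈ k₁.divisors, t * w ≤ w ^ j ∧
            b.2 ≡ a.2 [ZMOD ((g * (k₁ / t) : ℕ) : ℤ)]) ⊆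
          ((S.filter fun b => 1 ≤ i ∧ a.1 ≤ b.1 ∧ b.1 ≤ a.1 + y * w ^ (i - 1)) ∪
            S.filter fun b => 1 ≤ i ∧ a.1 - y * w ^ (i - 1) ≤ b.1 ∧
              b.1 ≤ a.1 - y * w ^ (i - 1) + y * w ^ (i - 1)) ∪
          k₁.divisors.biUnion fun t => S.filter fun b => t * w ≤ w ^ j ∧
            b.2 ≡ a.2 [ZMOD ((g * (k₁ / t) : ℕ) : ℤ)] from fun b hb' => by
        obtain ⟨b1, ⟨b2, b3⟩ | ⟨t, b2, b3⟩⟩ := Finset.mem_filter.1 hb'
        · rw [abs_lt] at b3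
          refine Finset.mem_union_left _ (Finset.mem_union.2 ((le_total a.1 b.1).imp
            (fun h => Finset.mem_filter.2 ⟨b1, b2, h, by linarith⟩)
            fun h => Finset.mem_filter.2 ⟨b1, b2, by linarith, by linarith⟩))
        · exact Finset.mem_union_right _
            (Finset.mem_biUnion.2 ⟨t, b2, Finset.mem_filter.2 ⟨b1, b3⟩⟩))
      have C' := C.trans ((Finset.card_union_le _ _).trans
        (add_le_add (Finset.card_union_le _ _) Finset.card_biUnion_le))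
      have D := Finset.sum_le_card_nsmul _ _ _ B
      rw [nsmul_eq_mul] at D
      refine (Nat.cast_le.2 C').trans ?_
      push_cast at D ⊢
      linarith [A a.1, A (a.1 - y * w ^ (i - 1)),
        mul_le_mul_of_nonneg_right hτ (zero_le_one.trans hc1)]
    have hY := hcore k₀ g' i e hd hi (not_le.1 hc).le Y (y1.trans hS) fun a ha b hb' hab => by
      have h1 := y2 a ha b hb' hab
      rw [not_or] at h1
      obtain ⟨a1, a2, a3⟩ := hb a (y1 ha)
      obtain ⟨b1, b2, b3⟩ := hb b (y1 hb')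
      obtain ⟨d, hd'⟩ := (b3.trans a3.symm).dvd
      refine ⟨d, hd', ?_, ?_, ?_⟩
      · have h0 := ne_zero_of_dvd_ne_zero hk hd
        obtain ⟨t, ht⟩ : Int.gcd d k₀ ∣ k₀ := Int.natCast_dvd_natCast.1 (Int.gcd_dvd_right d k₀)
        have ht1 : t ∣ k₁ := (Dvd.intro_left _ ht.symm).trans hd
        have ht0 : 0 < t := Nat.pos_of_dvd_of_pos ht1 (Nat.pos_of_ne_zero hk)
        have e2 : g * (k₁ / t) = g' * Int.gcd d k₀ := by
          refine Nat.eq_of_mul_eq_mul_right ht0 ?_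
          rw [mul_assoc, Nat.div_mul_cancel ht1, mul_assoc, ← ht, e]
        have h2 : w ^ j < t * w := not_le.1 fun h => h1.2 ⟨t, Nat.mem_divisors.2 ⟨ht1, hk⟩, h,
          Int.modEq_iff_dvd.2 (by
            rw [e2, hd', Nat.cast_mul]
            exact mul_dvd_mul_left _ (Int.gcd_dvd_left d k₀))⟩
        have h3 : (k₀ : ℝ) = t * Int.gcd d k₀ := by rw [mul_comm]; exact_mod_cast ht
        exact (lt_of_mul_lt_mul_left (h3 ▸ hj.trans_lt h2) (Nat.cast_nonneg t)).le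
      · have := mul_le_mul_of_nonneg_left (hwi i) hy.le
        exact abs_le.2 ⟨by linarith, by linarith⟩
      · rcases Nat.eq_zero_or_pos i with rfl | h
        · exact Or.inl (by simp)
        · exact Or.inr (not_lt.1 fun h' => h1.1 ⟨h, h'⟩)
    calc (S.card : ℝ) ≤ Y.card * ((2 + τ) * c + 1) := y3
      _ ≤ R * ((2 + τ) * c + c) := by gcongr
      _ = _ := by rw [hcd]; ring

theorem sparse {ε : ℝ} (hε : 0 < ε) {A : ℕ} (hA : 1 ≤ A) : ∃ δ T₀ : ℝ, 0 < δ ∧ 1 ≤ T₀ ∧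
    ∀ (g k₁ : ℕ) (y : ℝ) (X : Finset (ℝ × ℤ)), 1 ≤ g * k₁ → T₀ ≤ y / (g * k₁ : ℕ) →
      (k₁ : ℝ) ≤ (y / (g * k₁ : ℕ)) ^ A →
      (∀ a ∈ X, (2 - δ) * y / ((Nat.totient (g * k₁) : ℝ) * Real.log (y / (g * k₁ : ℕ))) ≤
        np (g * k₁) y a) →
      (∀ a ∈ X, ∀ b ∈ X, a ≠ b → |a.1 - b.1| ≤ y * (y / (g * k₁ : ℕ)) ^ A ∧
        a.2 ≡ b.2 [ZMOD (g : ℤ)] ∧ (¬ a.2 ≡ b.2 [ZMOD ((g * k₁ : ℕ) : ℤ)] ∨ y ≤ |a.1 - b.1|)) →
      (X.card : ℝ) ≤ (y / (g * k₁ : ℕ)) ^ ε := by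
  obtain ⟨N, hN3, hN⟩ : ∃ N : ℕ, 3 ≤ N ∧ 33 * A / ε ≤ N :=
    ⟨max 3 ⌈33 * A / ε⌉₊, le_max_left _ _,
      (Nat.le_ceil _).trans (Nat.cast_le.2 (le_max_right _ _))⟩
  set e := N * (30 * (20 * A + 1) ^ 2) * (32 * (20 * A) + 24) with he
  obtain ⟨t, ht2, ht⟩ : ∃ t : ℕ, 2 ≤ t ∧ (e + 4 * N + 1) / ε ≤ t :=
    ⟨max 2 ⌈(e + 4 * N + 1) / ε⌉₊, le_max_left _ _,
      (Nat.le_ceil _).trans (Nat.cast_le.2 (le_max_right _ _))⟩
  set n := 4 * N * t with hn
  have hn20 : 20 ≤ n := by nlinarith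
  obtain ⟨u₀, h⟩ := core_avg (K := 20 * A + 1) (n := n) (N := N) (by omega) hn20 hN3
  obtain ⟨D, hD1, hD⟩ := div_bound (ε := ((96 * n ^ 2 * A * 2 : ℕ) : ℝ)⁻¹) (by positivity)
  have hD2 : 1 ≤ D ^ 2 + 3 := by linarith [sq_nonneg D]
  refine ⟨1 / (5 * (n : ℝ) ^ 2), (max u₀ (D ^ 2 + 3)) ^ (96 * n ^ 2), by positivity,
    one_le_pow₀ (hD2.trans (le_max_right _ _)), fun g k₁ y X hk hT hk₁ hbad hX => ?_⟩
  have hN0 : 96 * n ^ 2 ≠ 0 := by positivity
  set T := y / (g * k₁ : ℕ) with hTd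
  have hT1 : 1 ≤ T := (one_le_pow₀ (hD2.trans (le_max_right _ _))).trans hT
  have hT0 : 0 < T := by linarith
  have hy : 0 < y := by
    have hk' : (0 : ℝ) < (g * k₁ : ℕ) := by exact_mod_cast hk
    exact (div_pos_iff_of_pos_right hk').1 hT0
  have hk0 : k₁ ≠ 0 := by rintro rfl; simp at hk
  obtain ⟨u, hu0, hup⟩ : ∃ u : ℝ, 0 ≤ u ∧ u ^ (96 * n ^ 2) = T :=
    ⟨_, Real.rpow_nonneg hT0.le _, Real.rpow_inv_natCast_pow hT0.le hN0⟩
  have hu1 : max u₀ (D ^ 2 + 3) ≤ u := le_of_pow_le_pow_left₀ hN0 hu0 (by rw [hup]; exact hT)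
  have hu2 : D ^ 2 + 3 ≤ u := (le_max_right _ _).trans hu1
  have hu3 : 3 ≤ u := by linarith [sq_nonneg D]
  set B := u ^ (96 * n) with hB
  have huB : u ^ 3 ≤ B := pow_le_pow_right₀ (by linarith) (by omega)
  have hB4 : 4 * u ≤ B := le_trans (by nlinarith [mul_le_mul hu3 hu3 (by norm_num) hu0]) huB
  have hB1 : 1 < B := by linarith
  have hB0 : 0 < B := by linarith
  have hBT : B ^ n = T := by rw [hB, ← pow_mul, ← hup]; congr 1; ring
  set w := (B ^ N) ^ 4 with hw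
  have hw1 : 1 < w := one_lt_pow₀ (one_lt_pow₀ hB1 (by omega)) (by norm_num)
  have hwT : w ^ (t * A) = T ^ A := by
    rw [hw, ← hBT, ← pow_mul B N, ← pow_mul B (N * 4), ← pow_mul B n]; congr 1; rw [hn]; ring
  have hτ : (k₁.divisors.card : ℝ) ≤ u := (hD k₁ hk0).trans (by
    have a1 : (k₁ : ℝ) ^ (((96 * n ^ 2 * A * 2 : ℕ) : ℝ)⁻¹) ≤ √u := by
      rw [← Real.pow_rpow_inv_natCast (Real.sqrt_nonneg u)
        (show 96 * n ^ 2 * A * 2 ≠ 0 by positivity)]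
      refine Real.rpow_le_rpow (by positivity) ?_ (by positivity)
      rwa [mul_comm _ 2, pow_mul, Real.sq_sqrt hu0, pow_mul, hup]
    have a2 : D ≤ √u := Real.le_sqrt_of_sq_le (by linarith)
    calc _ ≤ √u * √u := by gcongr
      _ = u := Real.mul_self_sqrt hu0)
  rcases X.eq_empty_or_nonempty with rfl | hne
  · simpa using Real.rpow_nonneg hT0.le ε
  obtain ⟨a₀, ha₀, hmin⟩ := Finset.exists_min_image X (fun a => a.1) hne
  have key := two_scale (g := g) (I := t * A) (E := B ^ e) (R := 2 * B ^ 32) hk0 hy hw1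
    (one_le_pow₀ hB1.le) (by linarith [one_le_pow₀ (n := 32) hB1.le]) hτ X
    (fun a ha b hb hab => (hX a ha b hb hab).2.2) (fun k₀ g' i e1 hd hi hQ Y hY hF => by
      by_contra hc
      have hΛ : 1 ≤ w ^ (i - 1) := one_le_pow₀ hw1.le
      have hQ2 : k₀ * w ^ (i - 1) ≤ T ^ A * T ^ A := by
        refine mul_le_mul ((Nat.cast_le.2 (Nat.le_of_dvd (Nat.pos_of_ne_zero hk0) hd)).trans hk₁)
          ?_ (by positivity) (by positivity)
        rw [← hwT]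
        exact pow_le_pow_right₀ hw1.le (by omega)
      obtain ⟨r, hr0, hrp⟩ : ∃ r : ℝ, 0 ≤ r ∧ r ^ (32 * (20 * A) + 24) = k₀ * w ^ (i - 1) :=
        ⟨_, Real.rpow_nonneg (by positivity) _,
          Real.rpow_inv_natCast_pow (by positivity) (by omega)⟩
      obtain ⟨a, ha, hlt⟩ := h (g * k₁) k₀ g' y u r (r ^ (16 * (20 * A) + 12)) (w ^ (i - 1)) Y hk e1
        ((le_max_left _ _).trans hu1) hup.symm (by ring) (by rw [← hrp]; ring) hΛ
        (le_of_pow_le_pow_left₀ (n := 32 * (20 * A) + 24) (by omega) hr0 (by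
          rw [hrp, ← hB, ← pow_mul, ← pow_mul, ← mul_assoc]; exact hQ))
        (le_of_pow_le_pow_left₀ (n := 32 * (20 * A) + 24) (by omega) (by positivity) (by
          rw [hup, ← pow_mul, mul_comm, pow_mul, hrp]
          refine (pow_le_pow_left₀ (by positivity) hQ2 _).trans ?_
          rw [← pow_add, ← pow_mul]
          exact pow_le_pow_right₀ hT1 (by omega))) (not_le.1 hc).le hF
      exact absurd (hbad a (hY ha)) (not_le.2 hlt))
    (t * A + t * A) k₁ g (t * A) (t * A) rfl dvd_rfl le_rfl le_rfl (by rw [hwT]; exact hk₁)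
    a₀.1 a₀.2 X subset_rfl fun a ha => by
      refine ⟨hmin a ha, ?_⟩
      rw [hwT]
      rcases eq_or_ne a a₀ with rfl | hne
      · exact ⟨le_add_of_nonneg_right (by positivity), rfl⟩
      · obtain ⟨b1, b2, -⟩ := hX a ha a₀ ha₀ hne
        exact ⟨by linarith [(abs_le.1 b1).2], b2⟩
  refine key.trans ?_
  calc _ ≤ B * B ^ e * w * (B ^ 33) ^ (t * A + t * A) := by
        gcongr
        · linarith
        · calc 2 * B ^ 32 * (3 + u) = B ^ 32 * (2 * (3 + u)) := by ring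
            _ ≤ B ^ 32 * B := by gcongr; linarith
            _ = _ := by ring
    _ = B ^ (e + 4 * N + 1 + 66 * (t * A)) := by rw [hw]; ring
    _ ≤ _ := by
      rw [← hBT, ← Real.rpow_natCast, ← Real.rpow_natCast, ← Real.rpow_mul hB0.le]
      refine Real.rpow_le_rpow_of_exponent_le hB1.le ?_
      rw [div_le_iff₀ hε] at hN ht
      have a1 : (3 : ℝ) ≤ N := by exact_mod_cast hN3
      have a2 : (0 : ℝ) ≤ t := Nat.cast_nonneg _
      have a3 := mul_le_mul_of_nonneg_left hN a2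
      have a4 := mul_le_mul_of_nonneg_left a1 (mul_nonneg a2 hε.le)
      rw [hn]
      push_cast
      nlinarith [mul_nonneg a2 hε.le]

end Pool.Agent.P.MP_26a8c3_nt.Sp
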